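import Mathlib

/-!
# Sign certificates for the seven link chain (MP_e0fe99_lc)

Eight vectors of `R^4`: `P 0 = (0, direction)`, `P i = (1, v i)` for `1 ≤ i ≤ 6`,
`P 7 = (0, direction)`; a ninth vector `P 8 = (0, V)` is a direction of projection.

* `cert1` : the weak form of the 59 signs in `RL`, together with the non meeting conditions,
  forces all brackets to vanish or all 59 signs except possibly that of `0167` to be strict.
* `cert2` : under the 59 strict signs every projection direction `V` shows a crossing of the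
  first ray with one of the links 3, 4, 5, 6, unless `V` vanishes.
-/

namespace Pool.Agent.LKT

/-- The determinant of four vectors of `R^4`. -/
def det4 (a b c d : Fin 4 → ℝ) : ℝ :=
  (a 0 * b 1 - a 1 * b 0) * (c 2 * d 3 - c 3 * d 2)
  - (a 0 * b 2 - a 2 * b 0) * (c 1 * d 3 - c 3 * d 1)
  + (a 0 * b 3 - a 3 * b 0) * (c 1 * d 2 - c 2 * d 1)
  + (a 1 * b 2 - a 2 * b 1) * (c 0 * d 3 - c 3 * d 0)
  - (a 1 * b 3 - a 3 * b 1) * (c 0 * d 2 - c 2 * d 0)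
  + (a 2 * b 3 - a 3 * b 2) * (c 0 * d 1 - c 1 * d 0)

/-- The bracket of the points `a b c d` of the configuration `P`. -/
def Br (P : ℕ → Fin 4 → ℝ) (a b c d : ℕ) : ℝ := det4 (P a) (P b) (P c) (P d)

/-- The 59 brackets of constant sign; `true` is the sign `+`, `false` the sign `-`. -/
def RL : List (ℕ × ℕ × ℕ × ℕ × Bool) :=
  [(0, 1, 2, 3, false), (0, 1, 2, 4, true), (0, 1, 2, 5, false), (0, 1, 2, 6, true), (0, 1, 2, 7, false), (0, 1, 3, 4, false), (0, 1, 3, 5, true), (0, 1, 3, 6, false), (0, 1, 3, 7, true), (0, 1, 4, 5, false), (0, 1, 4, 6, true), (0, 1, 4, 7, false), (0, 1, 5, 6, false), (0, 1, 5, 7, true), (0, 1, 6, 7, false), (0, 2, 3, 4, false), (0, 2, 3, 5, true), (0, 2, 3, 6, false), (0, 2, 3, 7, true), (0, 2, 4, 5, true), (0, 2, 5, 6, false), (0, 2, 5, 7, true), (0, 2, 6, 7, true), (0, 3, 4, 5, false), (0, 3, 4, 7, false), (0, 3, 6, 7, false), (0, 4, 5, 6,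 false), (0, 4, 5, 7, true), (0, 4, 6, 7, true), (0, 5, 6, 7, false), (1, 2, 3, 4, true), (1, 2, 3, 5, false), (1, 2, 3, 6, true), (1, 2, 3, 7, false), (1, 2, 4, 5, false), (1, 2, 5, 6, true), (1, 2, 5, 7, false), (1, 2, 6, 7, false), (1, 3, 4, 5, true), (1, 3, 6, 7, true), (1, 4, 5, 6, true), (1, 4, 5, 7, false), (1, 4, 6, 7, false), (1, 5, 6, 7, true), (2, 3, 4, 5, false), (2, 3, 4, 6, true), (2, 3, 4, 7, false), (2, 3, 5, 6, false), (2, 3, 5, 7, true), (2, 3, 6, 7, false), (2, 4, 5, 6, false), (2, 4, 5, 7, true), (2, 4, 6, 7, true), (2, 5, 6, 7, false), (3, 4, 5, 6, true), (3, 4, 5, 7, false), (3, 4, 6, 7, false), (3, 5, 6, 7, true), (4, 5, 6, 7, false)]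

/-- The pairs of links used in `cert1`. -/
def PL : List (ℕ × ℕ) :=
  [(0, 2), (0, 3), (0, 4), (0, 5), (1, 3), (1, 4), (1, 5), (1, 6), (2, 4), (2, 5), (2, 6), (3, 5),
    (3, 6), (4, 6)]

/-- The real number `1` or `-1` of a sign. -/
def sg (s : Bool) : ℝ := if s then 1 else -1

theorem det4_gp (a b c d e f : Fin 4 → ℝ) :
    det4 a b c d * det4 a b e f - det4 a b c e * det4 a b d f + det4 a b c f * det4 a b d e
      = 0 := by
  have key : ∀ p1 p2 p3 p4 p5 p6 : ℝ, p1 * p6 - p2 * p5 + p3 * p4 = 0 →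
    (p1 * (c 2 * d 3 - c 3 * d 2) - p2 * (c 1 * d 3 - c 3 * d 1) + p3 * (c 1 * d 2 - c 2 * d 1)
      + p4 * (c 0 * d 3 - c 3 * d 0) - p5 * (c 0 * d 2 - c 2 * d 0) + p6 * (c 0 * d 1 - c 1 * d 0)) *
    (p1 * (e 2 * f 3 - e 3 * f 2) - p2 * (e 1 * f 3 - e 3 * f 1) + p3 * (e 1 * f 2 - e 2 * f 1)
      + p4 * (e 0 * f 3 - e 3 * f 0) - p5 * (e 0 * f 2 - e 2 * f 0) + p6 * (e 0 * f 1 - e 1 * f 0))
    - (p1 * (c 2 * e 3 - c 3 * e 2) - p2 * (c 1 * e 3 - c 3 * e 1) + p3 * (c 1 * e 2 - c 2 * e 1)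
      + p4 * (c 0 * e 3 - c 3 * e 0) - p5 * (c 0 * e 2 - c 2 * e 0) + p6 * (c 0 * e 1 - c 1 * e 0)) *
    (p1 * (d 2 * f 3 - d 3 * f 2) - p2 * (d 1 * f 3 - d 3 * f 1) + p3 * (d 1 * f 2 - d 2 * f 1)
      + p4 * (d 0 * f 3 - d 3 * f 0) - p5 * (d 0 * f 2 - d 2 * f 0) + p6 * (d 0 * f 1 - d 1 * f 0))
    + (p1 * (c 2 * f 3 - c 3 * f 2) - p2 * (c 1 * f 3 - c 3 * f 1) + p3 * (c 1 * f 2 - c 2 * f 1)
      + p4 * (c 0 * f 3 - c 3 * f 0) - p5 * (c 0 * f 2 - c 2 * f 0) + p6 * (c 0 * f 1 - c 1 * f 0)) *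
    (p1 * (d 2 * e 3 - d 3 * e 2) - p2 * (d 1 * e 3 - d 3 * e 1) + p3 * (d 1 * e 2 - d 2 * e 1)
      + p4 * (d 0 * e 3 - d 3 * e 0) - p5 * (d 0 * e 2 - d 2 * e 0) + p6 * (d 0 * e 1 - d 1 * e 0))
    = 0 := by
    intro p1 p2 p3 p4 p5 p6 h
    have h2 : ∀ K : ℝ, K * (p1 * p6 - p2 * p5 + p3 * p4) = 0 := by intro K; rw [h]; ring
    have := h2 (det4 c d e f)
    unfold det4 at this
    linear_combination this
  unfold det4
  apply key
  ring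

theorem det4_12 (a b c d : Fin 4 → ℝ) : det4 b a c d = - det4 a b c d := by
  unfold det4; ring

theorem det4_34 (a b c d : Fin 4 → ℝ) : det4 a b d c = - det4 a b c d := by
  unfold det4; ring

theorem det4_23 (a b c d : Fin 4 → ℝ) : det4 a c b d = - det4 a b c d := by
  unfold det4; ring

theorem det4_13 (a b c d : Fin 4 → ℝ) : det4 c b a d = - det4 a b c d := by
  unfold det4; ring

theorem det4_24 (a b c d : Fin 4 → ℝ) : det4 a d c b = - det4 a b c d := by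
  unfold det4; ring

/-- Cramer relation of five vectors of `R^4`. -/
theorem det4_lin (a b c d e : Fin 4 → ℝ) (i : Fin 4) :
    a i * det4 b c d e - b i * det4 a c d e + c i * det4 a b d e - d i * det4 a b c e
      + e i * det4 a b c d = 0 := by
  unfold det4
  fin_cases i <;> simp <;> ring

/-! ### The checker -/

/-- Possible signs: negative, zero, positive. -/
structure Tri where
  n : Bool
  z : Bool
  p : Bool

/-- The real number `x` has one of the signs of `t`. -/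
def Tri.Has (t : Tri) (x : ℝ) : Prop :=
  (x < 0 → t.n = true) ∧ (x = 0 → t.z = true) ∧ (0 < x → t.p = true)

/-- Signs of the opposite. -/
def Tri.neg (t : Tri) : Tri := ⟨t.p, t.z, t.n⟩

/-- Signs of a product. -/
def Tri.mul (s t : Tri) : Tri :=
  ⟨(s.n && t.p) || (s.p && t.n), s.z || t.z, (s.n && t.n) || (s.p && t.p)⟩

theorem Tri.Has.neg {t : Tri} {x : ℝ} (h : t.Has x) : t.neg.Has (-x) := by
  obtain ⟨h1, h2, h3⟩ := h
  refine ⟨fun h => h3 (by linarith), fun h => h2 (by linarith), fun h => h1 (by linarith)⟩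

theorem Tri.Has.mul {s t : Tri} {x y : ℝ} (hs : s.Has x) (ht : t.Has y) :
    (s.mul t).Has (x * y) := by
  obtain ⟨h1, h2, h3⟩ := hs
  obtain ⟨k1, k2, k3⟩ := ht
  refine ⟨fun h => ?_, fun h => ?_, fun h => ?_⟩
  · rcases mul_neg_iff.1 h with ⟨u, v⟩ | ⟨u, v⟩
    · simp [Tri.mul, h3 u, k1 v]
    · simp [Tri.mul, h1 u, k3 v]
  · rcases mul_eq_zero.1 h with u | u
    · simp [Tri.mul, h2 u]
    · simp [Tri.mul, k2 u]
  · rcases mul_pos_iff.1 h with ⟨u, v⟩ | ⟨u, v⟩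
    · simp [Tri.mul, h3 u, k3 v]
    · simp [Tri.mul, h1 u, k1 v]

/-- Some entry can be negative. -/
def anyN : List Tri → Bool
  | [] => false
  | t :: l => t.n || anyN l

/-- Some entry can be positive. -/
def anyP : List Tri → Bool
  | [] => false
  | t :: l => t.p || anyP l

/-- All entries can be zero. -/
def allZ : List Tri → Bool
  | [] => true
  | t :: l => t.z && allZ l

/-- Two different entries can have opposite signs. -/
def opp : List Tri → Bool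
  | [] => false
  | t :: l => (t.p && anyN l) || (t.n && anyP l) || opp l

/-- The sum of the entries cannot be zero. -/
def viol (l : List Tri) : Bool := !(allZ l) && !(opp l)

theorem anyN_of {l : List Tri} {x : List ℝ} (h : List.Forall₂ Tri.Has l x) {y : ℝ}
    (hy : y ∈ x) (h0 : y < 0) : anyN l = true := by
  induction h with
  | nil => simp at hy
  | cons h1 _ ih =>
    rcases List.mem_cons.1 hy with rfl | hy
    · simp [anyN, h1.1 h0]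
    · simp [anyN, ih hy]

theorem anyP_of {l : List Tri} {x : List ℝ} (h : List.Forall₂ Tri.Has l x) {y : ℝ}
    (hy : y ∈ x) (h0 : 0 < y) : anyP l = true := by
  induction h with
  | nil => simp at hy
  | cons h1 _ ih =>
    rcases List.mem_cons.1 hy with rfl | hy
    · simp [anyP, h1.2.2 h0]
    · simp [anyP, ih hy]

theorem allZ_of {l : List Tri} {x : List ℝ} (h : List.Forall₂ Tri.Has l x)
    (h0 : ∀ y ∈ x, y = 0) : allZ l = true := by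
  induction h with
  | nil => rfl
  | cons h1 _ ih =>
    simp [allZ, h1.2.1 (h0 _ (by simp)), ih (fun y hy => h0 y (by simp [hy]))]

theorem opp_of {l : List Tri} {x : List ℝ} (h : List.Forall₂ Tri.Has l x)
    (ho : opp l = false) : (∀ y ∈ x, 0 ≤ y) ∨ (∀ y ∈ x, y ≤ 0) := by
  induction h with
  | nil => left; simp
  | @cons t x0 l x h1 h2 ih =>
    simp only [opp, Bool.or_eq_false_iff] at ho
    obtain ⟨⟨hp, hn⟩, ho⟩ := ho
    rcases lt_trichotomy x0 0 with hx | hx | hx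
    · right
      intro y hy
      rcases List.mem_cons.1 hy with rfl | hy
      · exact hx.le
      · by_contra hc
        have := anyP_of h2 hy (not_le.1 hc)
        simp [this, h1.1 hx] at hn
    · rcases ih ho with h | h
      · left
        intro y hy
        rcases List.mem_cons.1 hy with rfl | hy
        · exact hx.ge
        · exact h y hy
      · right
        intro y hy
        rcases List.mem_cons.1 hy with rfl | hy
        · exact hx.le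
        · exact h y hy
    · left
      intro y hy
      rcases List.mem_cons.1 hy with rfl | hy
      · exact hx.le
      · by_contra hc
        have := anyN_of h2 hy (not_le.1 hc)
        simp [this, h1.2.2 hx] at hp

theorem sum_neg (x : List ℝ) : (x.map (fun t => -t)).sum = - x.sum := by
  induction x with
  | nil => simp
  | cons a l ih => simp only [List.map_cons, List.sum_cons, ih]; ring

theorem viol_of {l : List Tri} {x : List ℝ} (h : List.Forall₂ Tri.Has l x)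
    (h0 : x.sum = 0) : viol l = false := by
  by_contra hv
  have hv : viol l = true := by simpa using hv
  simp only [viol, Bool.and_eq_true, Bool.not_eq_true'] at hv
  obtain ⟨hz, ho⟩ := hv
  have : ∀ y ∈ x, y = 0 := by
    rcases opp_of h ho with h1 | h1
    · intro y hy
      have h2 := List.single_le_sum h1 y hy
      exact le_antisymm (by rw [h0] at h2; exact h2) (h1 y hy)
    · intro y hy
      have h3 : ∀ w ∈ x.map (fun t => -t), 0 ≤ w := by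
        intro w hw
        obtain ⟨u, hu, rfl⟩ := List.mem_map.1 hw
        have := h1 u hu
        linarith
      have h4 : (x.map (fun t => -t)).sum = 0 := by
        rw [sum_neg, h0, neg_zero]
      have h2 := List.single_le_sum h3 (-y) (List.mem_map.2 ⟨y, hy, rfl⟩)
      rw [h4] at h2
      exact le_antisymm (h1 y hy) (by linarith)
  rw [allZ_of h this] at hz
  exact absurd hz (by simp)

/-- Key of the fact: the sign of the bracket `a b c d` is not `v` (0 negative, 1 zero,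
2 positive). -/
def key (a b c d v : ℕ) : ℕ := Nat.pair (Nat.pair a b) (Nat.pair (Nat.pair c d) v)

theorem key_inj {a b c d v a' b' c' d' v' : ℕ} (h : key a b c d v = key a' b' c' d' v') :
    a = a' ∧ b = b' ∧ c = c' ∧ d = d' ∧ v = v' := by
  simp only [key, Nat.pair_eq_pair] at h
  tauto

/-- Membership test. -/
def mem (k : ℕ) : List ℕ → Bool
  | [] => false
  | x :: l => Nat.beq k x || mem k l

/-- The real number `x` does not have the sign `v`. -/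
def NotSgn (v : ℕ) (x : ℝ) : Prop :=
  (v = 0 ∧ 0 ≤ x) ∨ (v = 1 ∧ x ≠ 0) ∨ (v = 2 ∧ x ≤ 0)

/-- All the facts of the list hold. -/
def Facts (D : ℕ → ℕ → ℕ → ℕ → ℝ) (F : List ℕ) : Prop :=
  ∀ a b c d v, mem (key a b c d v) F = true → NotSgn v (D a b c d)

theorem Facts.cons {D : ℕ → ℕ → ℕ → ℕ → ℝ} {F : List ℕ} (h : Facts D F) {a b c d v : ℕ}
    (hv : NotSgn v (D a b c d)) : Facts D (key a b c d v :: F) := by
  intro a' b' c' d' v' hm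
  simp only [mem, Bool.or_eq_true] at hm
  rcases hm with hm | hm
  · have := key_inj (Nat.eq_of_beq_eq_true hm)
    obtain ⟨rfl, rfl, rfl, rfl, rfl⟩ := this
    exact hv
  · exact h _ _ _ _ _ hm

/-- Possible signs of a sorted bracket. -/
def look (F : List ℕ) (a b c d : ℕ) : Tri :=
  ⟨!(mem (key a b c d 0) F), !(mem (key a b c d 1) F), !(mem (key a b c d 2) F)⟩

theorem look_has {D : ℕ → ℕ → ℕ → ℕ → ℝ} {F : List ℕ} (h : Facts D F) (a b c d : ℕ) :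
    (look F a b c d).Has (D a b c d) := by
  refine ⟨fun hx => ?_, fun hx => ?_, fun hx => ?_⟩
  · by_contra hc
    have hc : mem (key a b c d 0) F = true := by simpa [look] using hc
    rcases h _ _ _ _ _ hc with ⟨_, h⟩ | ⟨h, _⟩ | ⟨h, _⟩
    · linarith
    · omega
    · omega
  · by_contra hc
    have hc : mem (key a b c d 1) F = true := by simpa [look] using hc
    rcases h _ _ _ _ _ hc with ⟨h, _⟩ | ⟨_, h⟩ | ⟨h, _⟩
    · omega
    · exact h hx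
    · omega
  · by_contra hc
    have hc : mem (key a b c d 2) F = true := by simpa [look] using hc
    rcases h _ _ _ _ _ hc with ⟨h, _⟩ | ⟨h, _⟩ | ⟨_, h⟩
    · omega
    · omega
    · linarith

/-- Four indices and a parity. -/
structure Q where
  a : ℕ
  b : ℕ
  c : ℕ
  d : ℕ
  s : Bool

/-- Value of a quadruple with parity. -/
def Q.val (D : ℕ → ℕ → ℕ → ℕ → ℝ) (q : Q) : ℝ :=
  if q.s then - D q.a q.b q.c q.d else D q.a q.b q.c q.d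

/-- Comparators. -/
def Q.c12 (q : Q) : Q := if Nat.ble q.a q.b then q else ⟨q.b, q.a, q.c, q.d, !q.s⟩
/-- Comparators. -/
def Q.c34 (q : Q) : Q := if Nat.ble q.c q.d then q else ⟨q.a, q.b, q.d, q.c, !q.s⟩
/-- Comparators. -/
def Q.c13 (q : Q) : Q := if Nat.ble q.a q.c then q else ⟨q.c, q.b, q.a, q.d, !q.s⟩
/-- Comparators. -/
def Q.c24 (q : Q) : Q := if Nat.ble q.b q.d then q else ⟨q.a, q.d, q.c, q.b, !q.s⟩
/-- Comparators. -/
def Q.c23 (q : Q) : Q := if Nat.ble q.b q.c then q else ⟨q.a, q.c, q.b, q.d, !q.s⟩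

/-- The bracket function is alternating. -/
structure Alt (D : ℕ → ℕ → ℕ → ℕ → ℝ) : Prop where
  h12 : ∀ a b c d, D b a c d = - D a b c d
  h34 : ∀ a b c d, D a b d c = - D a b c d
  h13 : ∀ a b c d, D c b a d = - D a b c d
  h24 : ∀ a b c d, D a d c b = - D a b c d
  h23 : ∀ a b c d, D a c b d = - D a b c d

theorem Q.val_c12 {D : ℕ → ℕ → ℕ → ℕ → ℝ} (h : Alt D) (q : Q) : q.c12.val D = q.val D := by
  obtain ⟨a, b, c, d, s⟩ := q
  unfold Q.c12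
  split_ifs
  · rfl
  · cases s <;> simp [Q.val, h.h12 a b c d]

theorem Q.val_c34 {D : ℕ → ℕ → ℕ → ℕ → ℝ} (h : Alt D) (q : Q) : q.c34.val D = q.val D := by
  obtain ⟨a, b, c, d, s⟩ := q
  unfold Q.c34
  split_ifs
  · rfl
  · cases s <;> simp [Q.val, h.h34 a b c d]

theorem Q.val_c13 {D : ℕ → ℕ → ℕ → ℕ → ℝ} (h : Alt D) (q : Q) : q.c13.val D = q.val D := by
  obtain ⟨a, b, c, d, s⟩ := q
  unfold Q.c13
  split_ifs
  · rfl
  · cases s <;> simp [Q.val, h.h13 a b c d]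

theorem Q.val_c24 {D : ℕ → ℕ → ℕ → ℕ → ℝ} (h : Alt D) (q : Q) : q.c24.val D = q.val D := by
  obtain ⟨a, b, c, d, s⟩ := q
  unfold Q.c24
  split_ifs
  · rfl
  · cases s <;> simp [Q.val, h.h24 a b c d]

theorem Q.val_c23 {D : ℕ → ℕ → ℕ → ℕ → ℝ} (h : Alt D) (q : Q) : q.c23.val D = q.val D := by
  obtain ⟨a, b, c, d, s⟩ := q
  unfold Q.c23
  split_ifs
  · rfl
  · cases s <;> simp [Q.val, h.h23 a b c d]

/-- Possible signs of a quadruple. -/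
def Q.tri (F : List ℕ) (q : Q) : Tri :=
  if q.s then (look F q.a q.b q.c q.d).neg else look F q.a q.b q.c q.d

/-- Possible signs of any bracket. -/
def bt (F : List ℕ) (a b c d : ℕ) : Tri :=
  (Q.mk a b c d false).c12.c34.c13.c24.c23.tri F

theorem bt_has {D : ℕ → ℕ → ℕ → ℕ → ℝ} (hD : Alt D) {F : List ℕ} (h : Facts D F)
    (a b c d : ℕ) : (bt F a b c d).Has (D a b c d) := by
  have h1 : ∀ q : Q, (q.tri F).Has (q.val D) := by
    intro q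
    unfold Q.tri Q.val
    split_ifs
    · exact (look_has h _ _ _ _).neg
    · exact look_has h _ _ _ _
  have h2 := h1 (Q.mk a b c d false).c12.c34.c13.c24.c23
  rw [Q.val_c23 hD, Q.val_c24 hD, Q.val_c13 hD, Q.val_c34 hD, Q.val_c12 hD] at h2
  simpa [Q.val, bt] using h2

/-- Constraints: Grassmann Pluecker, first coordinate, non meeting. -/
inductive Cn where
  | G (a b c d e f : ℕ)
  | L (a b c d e : ℕ)
  | M (k l e : ℕ)

/-- The point is finite. -/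
def fin (i : ℕ) : Bool := Nat.ble 1 i && Nat.ble i 6

/-- The sign pattern of a meeting is forced. -/
def meet (A B C D : Tri) : Bool :=
  !((A.mul B).p) && !((C.mul D).p) && (!A.z || !B.z || !C.z || !D.z)

/-- The list of the pairs. -/
def pm (k l : ℕ) : List (ℕ × ℕ) → Bool
  | [] => false
  | x :: L => (Nat.beq k x.1 && Nat.beq l x.2) || pm k l L

/-- The constraint is violated by all sign vectors compatible with the facts; in mode `true`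
the non meeting constraint needs a vanishing bracket, in mode `false` it is about projections
along the point 8. -/
def bad (m : Bool) (F : List ℕ) : Cn → Bool
  | .G a b c d e f =>
    viol [(bt F a b c d).mul (bt F a b e f), ((bt F a b c e).mul (bt F a b d f)).neg,
      (bt F a b c f).mul (bt F a b d e)]
  | .L a b c d e =>
    viol [if fin a then bt F b c d e else ⟨false, true, false⟩,
      if fin b then (bt F a c d e).neg else ⟨false, true, false⟩,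
      if fin c then bt F a b d e else ⟨false, true, false⟩,
      if fin d then (bt F a b c e).neg else ⟨false, true, false⟩,
      if fin e then bt F a b c d else ⟨false, true, false⟩]
  | .M k l e =>
    if m then
      pm k l PL && !(bt F k (k + 1) l (l + 1)).n && !(bt F k (k + 1) l (l + 1)).p &&
      meet (bt F k (k + 1) l e) (bt F k (k + 1) (l + 1) e) (bt F l (l + 1) k e)
        (bt F l (l + 1) (k + 1) e)
    else
      Nat.beq e 8 && pm k l [(0, 2), (0, 3), (0, 4), (0, 5)] &&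
      meet (bt F k (k + 1) l e) (bt F k (k + 1) (l + 1) e) (bt F l (l + 1) k e)
        (bt F l (l + 1) (k + 1) e)

/-- The sign pattern of meeting. -/
def Pat (A B C D : ℝ) : Prop :=
  A * B ≤ 0 ∧ C * D ≤ 0 ∧ ¬ (A = 0 ∧ B = 0 ∧ C = 0 ∧ D = 0)

/-- The hypotheses on the bracket function. -/
structure Hyp (m : Bool) (D : ℕ → ℕ → ℕ → ℕ → ℝ) : Prop where
  alt : Alt D
  gp : ∀ a b c d e f, D a b c d * D a b e f - D a b c e * D a b d f + D a b c f * D a b d e = 0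
  lin : ∀ a b c d e, a ≤ 8 → b ≤ 8 → c ≤ 8 → d ≤ 8 → e ≤ 8 →
    (if fin a then D b c d e else 0) + -(if fin b then D a c d e else 0)
    + (if fin c then D a b d e else 0) + -(if fin d then D a b c e else 0)
    + (if fin e then D a b c d else 0) = 0
  m1 : m = true → ∀ k l e, (k, l) ∈ PL → D k (k + 1) l (l + 1) = 0 →
    ¬ Pat (D k (k + 1) l e) (D k (k + 1) (l + 1) e) (D l (l + 1) k e) (D l (l + 1) (k + 1) e)
  m2 : m = false → ∀ k l, (k, l) ∈ [(0, 2), (0, 3), (0, 4), (0, 5)] →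
    ¬ Pat (D k (k + 1) l 8) (D k (k + 1) (l + 1) 8) (D l (l + 1) k 8) (D l (l + 1) (k + 1) 8)

theorem pm_mem {k l : ℕ} {L : List (ℕ × ℕ)} (h : pm k l L = true) : (k, l) ∈ L := by
  induction L with
  | nil => simp [pm] at h
  | cons x L ih =>
    simp only [pm, Bool.or_eq_true, Bool.and_eq_true] at h
    rcases h with ⟨h1, h2⟩ | h
    · have h1 := Nat.eq_of_beq_eq_true h1
      have h2 := Nat.eq_of_beq_eq_true h2
      subst h1; subst h2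
      exact List.mem_cons_self
    · exact List.mem_cons_of_mem _ (ih h)

theorem meet_pat {A B C D : Tri} {x y z w : ℝ} (hA : A.Has x) (hB : B.Has y) (hC : C.Has z)
    (hD : D.Has w) (h : meet A B C D = true) : Pat x y z w := by
  simp only [meet, Bool.and_eq_true, Bool.not_eq_true', Bool.or_eq_true] at h
  obtain ⟨⟨h1, h2⟩, h3⟩ := h
  refine ⟨?_, ?_, ?_⟩
  · by_contra hc
    have := (hA.mul hB).2.2 (not_le.1 hc)
    rw [h1] at this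
    exact absurd this (by simp)
  · by_contra hc
    have := (hC.mul hD).2.2 (not_le.1 hc)
    rw [h2] at this
    exact absurd this (by simp)
  · rintro ⟨rfl, rfl, rfl, rfl⟩
    rcases h3 with ((h3 | h3) | h3) | h3
    · rw [hA.2.1 rfl] at h3; exact absurd h3 (by simp)
    · rw [hB.2.1 rfl] at h3; exact absurd h3 (by simp)
    · rw [hC.2.1 rfl] at h3; exact absurd h3 (by simp)
    · rw [hD.2.1 rfl] at h3; exact absurd h3 (by simp)

theorem zero_of_tri {t : Tri} {x : ℝ} (h : t.Has x) (hn : t.n = false) (hp : t.p = false) :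
    x = 0 := by
  rcases lt_trichotomy x 0 with h1 | h1 | h1
  · rw [h.1 h1] at hn; exact absurd hn (by simp)
  · exact h1
  · rw [h.2.2 h1] at hp; exact absurd hp (by simp)

theorem zero_has : (Tri.mk false true false).Has 0 :=
  ⟨fun h => absurd h (lt_irrefl _), fun _ => rfl, fun h => absurd h (lt_irrefl _)⟩

theorem if_has {b : Bool} {t : Tri} {x : ℝ} (h : t.Has x) :
    (if b then t else ⟨false, true, false⟩ : Tri).Has (if b then x else 0) := by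
  cases b
  · exact zero_has
  · exact h

theorem ifn_has {b : Bool} {t : Tri} {x : ℝ} (h : t.Has x) :
    (if b then t.neg else ⟨false, true, false⟩ : Tri).Has (-(if b then x else 0)) := by
  cases b
  · have := zero_has
    simpa using this
  · exact h.neg

/-- Bound of the indices of a constraint. -/
def Cn.ok : Cn → Bool
  | .G _ _ _ _ _ _ => true
  | .L a b c d e => Nat.ble a 8 && Nat.ble b 8 && Nat.ble c 8 && Nat.ble d 8 && Nat.ble e 8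
  | .M _ _ _ => true

theorem bad_false {m : Bool} {D : ℕ → ℕ → ℕ → ℕ → ℝ} (H : Hyp m D) {F : List ℕ}
    (hF : Facts D F) (c : Cn) (hok : c.ok = true) : bad m F c = false := by
  have hb := fun a b c d => bt_has H.alt hF a b c d
  cases c with
  | G a b c d e f =>
    refine viol_of (x := [D a b c d * D a b e f, -(D a b c e * D a b d f),
      D a b c f * D a b d e]) ?_ ?_
    · refine .cons ((hb _ _ _ _).mul (hb _ _ _ _)) (.cons ((hb _ _ _ _).mul (hb _ _ _ _)).neg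
        (.cons ((hb _ _ _ _).mul (hb _ _ _ _)) .nil))
    · have := H.gp a b c d e f
      simp only [List.sum_cons, List.sum_nil]
      linarith
  | L a b c d e =>
    simp only [Cn.ok, Bool.and_eq_true, Nat.ble_eq] at hok
    refine viol_of (x := [(if fin a then D b c d e else 0), -(if fin b then D a c d e else 0),
      (if fin c then D a b d e else 0), -(if fin d then D a b c e else 0),
      (if fin e then D a b c d else 0)]) ?_ ?_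
    · exact .cons (if_has (hb _ _ _ _)) (.cons (ifn_has (hb _ _ _ _)) (.cons (if_has (hb _ _ _ _))
        (.cons (ifn_has (hb _ _ _ _)) (.cons (if_has (hb _ _ _ _)) .nil))))
    · have := H.lin a b c d e hok.1.1.1.1 hok.1.1.1.2 hok.1.1.2 hok.1.2 hok.2
      simp only [List.sum_cons, List.sum_nil]
      linarith
  | M k l e =>
    by_contra hc
    have hc : bad m F (.M k l e) = true := by simpa using hc
    unfold bad at hc
    split_ifs at hc with hm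
    · simp only [Bool.and_eq_true, Bool.not_eq_true'] at hc
      obtain ⟨⟨⟨h1, h2⟩, h3⟩, h4⟩ := hc
      exact H.m1 hm k l e (pm_mem h1) (zero_of_tri (hb _ _ _ _) h2 h3)
        (meet_pat (hb _ _ _ _) (hb _ _ _ _) (hb _ _ _ _) (hb _ _ _ _) h4)
    · simp only [Bool.and_eq_true] at hc
      obtain ⟨⟨h1, h2⟩, h4⟩ := hc
      have h1 := Nat.eq_of_beq_eq_true h1
      subst h1
      exact H.m2 (by simpa using hm) k l (pm_mem h2)
        (meet_pat (hb _ _ _ _) (hb _ _ _ _) (hb _ _ _ _) (hb _ _ _ _) h4)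

/-- Certificates: contradiction, elimination of a sign, split, vanishing, strictness. -/
inductive Tr where
  | X (c : Cn)
  | E (a b c d v : ℕ) (k : Cn) (t : Tr)
  | B (a b c d v : ℕ) (l r : Tr)
  | Z
  | S

/-- The facts which say that the sign is `v`. -/
def asm (a b c d v : ℕ) (F : List ℕ) : List ℕ :=
  match v with
  | 0 => key a b c d 1 :: key a b c d 2 :: F
  | 1 => key a b c d 0 :: key a b c d 2 :: F
  | _ => key a b c d 0 :: key a b c d 1 :: F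

theorem asm_facts {D : ℕ → ℕ → ℕ → ℕ → ℝ} {F : List ℕ} (h : Facts D F) {a b c d v : ℕ}
    (hv : v ≤ 2) (hn : ¬ NotSgn v (D a b c d)) : Facts D (asm a b c d v F) := by
  unfold NotSgn at hn
  push Not at hn
  obtain ⟨h0, h1, h2⟩ := hn
  have hv : v = 0 ∨ v = 1 ∨ v = 2 := by omega
  rcases hv with rfl | rfl | rfl
  · have h0 := h0 rfl
    exact (h.cons (Or.inr (Or.inr ⟨rfl, h0.le⟩))).cons (Or.inr (Or.inl ⟨rfl, h0.ne⟩))
  · have h1 := h1 rfl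
    exact (h.cons (Or.inr (Or.inr ⟨rfl, h1.le⟩))).cons (Or.inl ⟨rfl, h1.ge⟩)
  · have h2 := h2 rfl
    exact (h.cons (Or.inr (Or.inl ⟨rfl, h2.ne'⟩))).cons (Or.inl ⟨rfl, h2.le⟩)

/-- The brackets of a list vanish. -/
def zs (F : List ℕ) : List (ℕ × ℕ × ℕ × ℕ) → Bool
  | [] => true
  | x :: L => mem (key x.1 x.2.1 x.2.2.1 x.2.2.2 0) F && mem (key x.1 x.2.1 x.2.2.1 x.2.2.2 2) F
      && zs F L

/-- The brackets of a list are not zero. -/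
def ss (F : List ℕ) : List (ℕ × ℕ × ℕ × ℕ) → Bool
  | [] => true
  | x :: L => mem (key x.1 x.2.1 x.2.2.1 x.2.2.2 1) F && ss F L

theorem zs_of {D : ℕ → ℕ → ℕ → ℕ → ℝ} {F : List ℕ} (h : Facts D F)
    {L : List (ℕ × ℕ × ℕ × ℕ)} (hz : zs F L = true) :
    ∀ x ∈ L, D x.1 x.2.1 x.2.2.1 x.2.2.2 = 0 := by
  induction L with
  | nil => simp
  | cons y L ih =>
    simp only [zs, Bool.and_eq_true] at hz
    obtain ⟨⟨h1, h2⟩, h3⟩ := hz
    intro x hx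
    rcases List.mem_cons.1 hx with rfl | hx
    · rcases h _ _ _ _ _ h1 with ⟨_, h1⟩ | ⟨h1, _⟩ | ⟨h1, _⟩
      · rcases h _ _ _ _ _ h2 with ⟨h2, _⟩ | ⟨h2, _⟩ | ⟨_, h2⟩
        · omega
        · omega
        · exact le_antisymm h2 h1
      · omega
      · omega
    · exact ih h3 x hx

theorem ss_of {D : ℕ → ℕ → ℕ → ℕ → ℝ} {F : List ℕ} (h : Facts D F)
    {L : List (ℕ × ℕ × ℕ × ℕ)} (hz : ss F L = true) :
    ∀ x ∈ L, D x.1 x.2.1 x.2.2.1 x.2.2.2 ≠ 0 := by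
  induction L with
  | nil => simp
  | cons y L ih =>
    simp only [ss, Bool.and_eq_true] at hz
    obtain ⟨h1, h3⟩ := hz
    intro x hx
    rcases List.mem_cons.1 hx with rfl | hx
    · rcases h _ _ _ _ _ h1 with ⟨h1, _⟩ | ⟨_, h1⟩ | ⟨h1, _⟩
      · omega
      · exact h1
      · omega
    · exact ih h3 x hx

/-- The checker. -/
def chk (m : Bool) (LZ LS : List (ℕ × ℕ × ℕ × ℕ)) : List ℕ → Tr → Bool
  | F, .X c => c.ok && bad m F c
  | F, .E a b c d v k t =>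
    Nat.ble v 2 && k.ok && bad m (asm a b c d v F) k && chk m LZ LS (key a b c d v :: F) t
  | F, .B a b c d v l r =>
    Nat.ble v 2 && chk m LZ LS (asm a b c d v F) l && chk m LZ LS (key a b c d v :: F) r
  | F, .Z => zs F LZ
  | F, .S => m && ss F LS

theorem chk_of {m : Bool} {D : ℕ → ℕ → ℕ → ℕ → ℝ} (H : Hyp m D)
    {LZ LS : List (ℕ × ℕ × ℕ × ℕ)} (t : Tr) : ∀ {F : List ℕ}, Facts D F →
    chk m LZ LS F t = true →
    (∀ x ∈ LZ, D x.1 x.2.1 x.2.2.1 x.2.2.2 = 0) ∨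
      (m = true ∧ ∀ x ∈ LS, D x.1 x.2.1 x.2.2.1 x.2.2.2 ≠ 0) := by
  induction t with
  | X c =>
    intro F hF h
    simp only [chk, Bool.and_eq_true] at h
    rw [bad_false H hF c h.1] at h
    exact absurd h.2 (by simp)
  | E a b c d v k t ih =>
    intro F hF h
    simp only [chk, Bool.and_eq_true, Nat.ble_eq] at h
    obtain ⟨⟨⟨hv, hk⟩, hb⟩, ht⟩ := h
    refine ih (hF.cons ?_) ht
    by_contra hn
    rw [bad_false H (asm_facts hF hv hn) k hk] at hb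
    exact absurd hb (by simp)
  | B a b c d v l r ihl ihr =>
    intro F hF h
    simp only [chk, Bool.and_eq_true, Nat.ble_eq] at h
    obtain ⟨⟨hv, hl⟩, hr⟩ := h
    by_cases hn : NotSgn v (D a b c d)
    · exact ihr (hF.cons hn) hr
    · exact ihl (asm_facts hF hv hn) hl
  | Z =>
    intro F hF h
    left
    exact zs_of hF h
  | S =>
    intro F hF h
    simp only [chk, Bool.and_eq_true] at h
    right
    exact ⟨h.1, ss_of hF h.2⟩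

/-- Facts from the weak signs. -/
def wk : List (ℕ × ℕ × ℕ × ℕ × Bool) → List ℕ
  | [] => []
  | x :: L => key x.1 x.2.1 x.2.2.1 x.2.2.2.1 (if x.2.2.2.2 then 0 else 2) :: wk L

/-- Facts from the strict signs. -/
def st : List (ℕ × ℕ × ℕ × ℕ × Bool) → List ℕ
  | [] => []
  | x :: L => key x.1 x.2.1 x.2.2.1 x.2.2.2.1 (if x.2.2.2.2 then 0 else 2) ::
      key x.1 x.2.1 x.2.2.1 x.2.2.2.1 1 :: st L

theorem wk_facts {D : ℕ → ℕ → ℕ → ℕ → ℝ} {L : List (ℕ × ℕ × ℕ × ℕ × Bool)}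
    (h : ∀ x ∈ L, 0 ≤ sg x.2.2.2.2 * D x.1 x.2.1 x.2.2.1 x.2.2.2.1) : Facts D (wk L) := by
  induction L with
  | nil => intro a b c d v hm; simp [wk, mem] at hm
  | cons y L ih =>
    refine (ih (fun x hx => h x (by simp [hx]))).cons ?_
    have := h y (by simp)
    obtain ⟨a, b, c, d, s⟩ := y
    cases s
    · right; right
      simp only [sg] at this
      refine ⟨by simp, ?_⟩
      simp at this
      exact this
    · left
      simp only [sg] at this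
      refine ⟨by simp, ?_⟩
      simp at this
      exact this

theorem st_facts {D : ℕ → ℕ → ℕ → ℕ → ℝ} {L : List (ℕ × ℕ × ℕ × ℕ × Bool)}
    (h : ∀ x ∈ L, 0 < sg x.2.2.2.2 * D x.1 x.2.1 x.2.2.1 x.2.2.2.1) : Facts D (st L) := by
  induction L with
  | nil => intro a b c d v hm; simp [st, mem] at hm
  | cons y L ih =>
    have := h y (by simp)
    have h0 : D y.1 y.2.1 y.2.2.1 y.2.2.2.1 ≠ 0 := by
      intro h0
      rw [h0, mul_zero] at this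
      exact lt_irrefl _ this
    refine ((ih (fun x hx => h x (by simp [hx]))).cons (v := 1) (Or.inr (Or.inl ⟨rfl, h0⟩))).cons ?_
    obtain ⟨a, b, c, d, s⟩ := y
    cases s
    · right; right
      simp only [sg] at this
      refine ⟨by simp, ?_⟩
      simp at this
      exact this.le
    · left
      simp only [sg] at this
      refine ⟨by simp, ?_⟩
      simp at this
      exact this.le

/-- Certificate of `cert1`. -/
def t1 : Tr :=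
  (.B 0 1 2 3 0
  (.E 0 2 3 4 1 (.L 0 1 2 3 4)
  (.E 0 2 3 6 1 (.L 0 1 2 3 6)
  (.E 0 1 3 4 1 (.M 0 3 2)
  (.E 0 1 4 5 1 (.M 0 4 3)
  (.E 0 1 5 6 1 (.M 0 5 4)
  (.E 1 2 4 5 1 (.M 1 4 0)
  (.E 2 3 4 5 1 (.M 2 4 0)
  (.E 2 3 5 6 1 (.M 2 5 4)
  (.E 2 3 6 7 1 (.M 2 6 0)
  (.E 3 4 6 7 1 (.M 3 6 2)
  (.E 4 5 6 7 1 (.M 4 6 3)
  (.E 0 1 2 4 1 (.G 0 4 1 2 3 5)
  (.E 0 3 4 5 1 (.G 0 4 1 2 3 5)
  (.E 1 2 3 5 1 (.G 2 3 0 1 4 5)
  (.E 0 2 3 5 1 (.G 2 3 0 4 5 6)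
  (.E 2 3 4 6 1 (.G 2 3 0 4 5 6)
  (.E 2 3 4 7 1 (.G 2 3 0 4 6 7)
  (.E 0 2 4 5 1 (.G 2 4 0 1 3 5)
  (.E 1 2 3 4 1 (.G 2 4 0 1 3 5)
  (.E 1 2 3 6 1 (.G 2 3 0 1 5 6)
  (.E 1 2 3 7 1 (.G 2 3 0 1 6 7)
  (.E 2 3 5 7 1 (.G 2 3 0 5 6 7)
  (.E 0 1 3 5 1 (.G 0 1 2 3 4 5)
  (.E 0 1 4 6 1 (.G 0 1 3 4 5 6)
  (.E 1 3 4 5 1 (.G 1 4 0 2 3 5)
  (.E 0 1 2 5 1 (.G 0 1 2 4 5 6)
  (.E 0 4 5 6 1 (.G 0 5 1 2 4 6)
  (.E 1 4 5 6 1 (.G 1 5 0 2 4 6)
  (.E 1 4 5 7 1 (.G 4 5 0 1 6 7)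
  (.E 0 1 3 6 1 (.G 0 1 2 3 5 6)
  (.E 0 5 6 7 1 (.G 5 6 0 1 4 7)
  (.E 0 2 5 6 1 (.L 0 1 2 5 6)
  (.E 1 2 5 6 1 (.G 2 5 0 1 4 6)
  (.E 2 4 5 6 1 (.G 2 5 1 3 4 6)
  (.E 2 4 5 7 1 (.G 2 5 1 3 4 7)
  (.E 3 4 5 6 1 (.G 3 4 2 5 6 7)
  (.E 3 4 5 7 1 (.G 4 5 2 3 6 7)
  (.E 2 5 6 7 1 (.G 2 6 1 3 5 7)
  (.E 3 5 6 7 1 (.G 3 6 2 4 5 7)
  (.E 0 3 6 7 1 (.G 6 7 0 2 3 5)
  (.E 2 4 6 7 1 (.G 6 7 2 3 4 5)
  (.E 1 2 6 7 1 (.M 1 6 3)
  (.E 0 4 6 7 1 (.G 6 7 0 3 4 5)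
  (.E 0 4 5 7 1 (.G 5 7 0 2 4 6)
  (.E 1 4 6 7 1 (.G 6 7 1 2 4 5)
  (.E 1 2 5 7 1 (.G 2 5 0 1 3 7)
  (.E 0 1 2 7 1 (.G 1 2 0 3 6 7)
  (.E 0 1 3 7 1 (.G 1 3 0 2 6 7)
  (.E 0 1 2 6 1 (.G 1 6 0 2 3 7)
  (.E 1 3 6 7 1 (.G 1 6 0 2 3 7)
  (.E 0 2 3 7 1 (.G 2 7 0 1 3 5)
  (.E 0 1 4 7 1 (.G 0 4 1 5 6 7)
  (.E 0 1 5 7 1 (.G 1 5 0 4 6 7)
  (.E 1 5 6 7 1 (.G 1 7 0 4 5 6)
  (.E 0 2 6 7 1 (.G 6 7 0 1 2 5)
  (.E 0 2 5 7 1 (.L 0 2 5 6 7)
  (.E 0 3 4 7 1 (.L 0 3 4 6 7)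
  .S)))))))))))))))))))))))))))))))))))))))))))))))))))))))))
  (.E 0 1 2 4 2 (.M 0 2 4)
  (.E 0 1 3 4 0 (.M 0 2 4)
  (.E 0 2 3 4 0 (.M 0 2 4)
  (.E 1 2 3 4 2 (.M 0 2 4)
  (.E 0 1 2 5 0 (.M 0 2 5)
  (.E 0 1 3 5 2 (.M 0 2 5)
  (.E 0 2 3 5 2 (.M 0 2 5)
  (.E 1 2 3 5 0 (.M 0 2 5)
  (.E 0 1 2 6 2 (.M 0 2 6)
  (.E 0 1 3 6 0 (.M 0 2 6)
  (.E 0 2 3 6 0 (.M 0 2 6)
  (.E 1 2 3 6 2 (.M 0 2 6)
  (.E 0 1 2 7 0 (.M 0 2 7)
  (.E 0 1 3 7 2 (.M 0 2 7)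
  (.E 0 2 3 7 2 (.M 0 2 7)
  (.E 1 2 3 7 0 (.M 0 2 7)
  (.E 0 1 4 5 0 (.M 0 3 5)
  (.E 0 3 4 5 0 (.M 0 3 5)
  (.E 1 3 4 5 2 (.M 0 3 5)
  (.E 1 3 4 7 2 (.M 0 3 7)
  (.E 0 2 4 5 2 (.M 0 4 2)
  (.E 1 2 4 5 0 (.M 0 4 2)
  (.E 0 1 4 6 2 (.M 0 4 6)
  (.E 0 1 5 6 0 (.M 0 4 6)
  (.E 0 4 5 6 0 (.M 0 4 6)
  (.E 1 4 5 6 2 (.M 0 4 6)
  (.E 0 1 4 7 0 (.M 0 4 7)
  (.E 0 1 5 7 2 (.M 0 4 7)
  (.E 0 4 5 7 2 (.M 0 4 7)
  (.E 1 4 5 7 0 (.M 0 4 7)
  (.E 0 2 5 6 0 (.M 0 5 2)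
  (.E 1 2 5 6 2 (.M 0 5 2)
  (.E 0 1 6 7 0 (.M 0 5 7)
  (.E 0 5 6 7 0 (.M 0 5 7)
  (.E 1 5 6 7 2 (.M 0 5 7)
  (.E 2 3 4 5 0 (.M 1 3 5)
  (.E 1 3 4 6 0 (.M 1 3 6)
  (.E 1 2 4 6 0 (.M 1 4 6)
  (.E 1 2 4 6 2 (.M 1 4 6)
  (.E 2 4 5 6 0 (.M 1 4 6)
  (.E 1 2 4 7 2 (.M 1 4 7)
  (.E 1 3 5 6 2 (.M 1 5 3)
  (.E 2 3 4 6 2 (.M 2 4 6)
  (.E 2 3 5 6 0 (.M 2 4 6)
  (.E 3 4 5 6 2 (.M 2 4 6)
  (.E 2 3 4 7 0 (.M 2 4 7)
  (.E 2 3 5 7 2 (.M 2 4 7)
  (.E 2 4 5 7 2 (.M 2 4 7)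
  (.E 3 4 5 7 0 (.M 2 4 7)
  (.E 0 3 5 6 0 (.M 2 5 0)
  (.E 0 3 5 6 2 (.M 2 5 0)
  (.E 1 3 5 6 0 (.M 2 5 1)
  (.E 2 3 6 7 0 (.M 2 5 7)
  (.E 2 5 6 7 0 (.M 2 5 7)
  (.E 3 5 6 7 2 (.M 2 5 7)
  (.E 0 2 6 7 2 (.M 2 6 0)
  (.E 0 3 6 7 0 (.M 2 6 0)
  (.E 1 2 6 7 0 (.M 2 6 1)
  (.E 1 3 6 7 2 (.M 2 6 1)
  (.E 2 4 6 7 2 (.M 2 6 4)
  (.E 3 4 6 7 0 (.M 2 6 4)
  (.E 0 3 4 6 0 (.M 3 5 0)
  (.E 0 3 4 6 2 (.M 3 5 0)
  (.E 1 3 4 6 2 (.M 3 5 1)
  (.E 4 5 6 7 0 (.M 3 5 7)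
  (.E 0 3 4 7 0 (.M 3 6 0)
  (.E 0 4 6 7 2 (.M 3 6 0)
  (.E 1 3 4 7 0 (.M 3 6 1)
  (.E 1 4 6 7 0 (.M 3 6 1)
  (.E 0 2 4 6 0 (.L 0 1 2 4 6)
  (.E 0 2 4 6 2 (.L 0 1 2 4 6)
  (.E 0 2 4 7 0 (.L 0 1 2 4 7)
  (.E 0 2 4 7 2 (.L 0 1 2 4 7)
  (.E 0 2 5 7 2 (.L 0 1 2 5 7)
  (.E 0 3 5 7 0 (.L 0 1 3 5 7)
  (.E 0 3 5 7 2 (.L 0 1 3 5 7)
  (.E 1 2 4 7 0 (.L 1 2 3 4 7)
  (.E 1 3 5 7 2 (.L 1 2 3 5 7)
  (.E 1 3 5 7 0 (.L 1 3 4 5 7)
  (.E 1 2 5 7 0 (.L 1 2 4 5 7)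
  .Z)))))))))))))))))))))))))))))))))))))))))))))))))))))))))))))))))))))))))))))))))

/-- Certificate of `cert2`. -/
def t2 : Tr :=
  (.B 0 1 7 8 0
  (.E 0 3 7 8 2 (.L 0 1 3 7 8)
  (.E 0 4 7 8 2 (.L 0 1 4 7 8)
  (.E 0 5 7 8 2 (.L 0 1 5 7 8)
  (.B 0 1 4 8 0
  (.E 0 1 2 8 2 (.G 0 1 2 4 7 8)
  (.E 0 1 3 8 0 (.G 0 1 3 4 7 8)
  (.E 0 1 3 8 1 (.G 0 1 3 4 7 8)
  (.E 0 2 3 8 0 (.G 0 3 1 2 7 8)
  (.E 0 3 4 8 2 (.G 0 4 1 3 7 8)
  (.E 1 2 3 8 0 (.M 0 2 8)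
  (.E 1 3 4 8 2 (.M 0 3 8)
  (.X (.G 1 3 0 2 4 8)))))))))
  (.E 0 1 5 8 1 (.G 0 1 4 5 7 8)
  (.E 0 1 5 8 2 (.G 0 1 4 5 7 8)
  (.E 0 1 6 8 0 (.G 0 1 4 6 7 8)
  (.E 0 4 5 8 2 (.G 0 4 1 5 7 8)
  (.E 0 5 6 8 0 (.G 0 5 1 6 7 8)
  (.E 1 4 5 8 2 (.M 0 4 8)
  (.E 1 5 6 8 0 (.M 0 5 8)
  (.X (.G 1 5 0 4 6 8)))))))))))))
  (.E 0 3 7 8 0 (.L 0 1 3 7 8)
  (.E 0 4 7 8 0 (.L 0 1 4 7 8)
  (.E 0 5 7 8 0 (.L 0 1 5 7 8)
  (.B 0 1 4 8 0
  (.E 0 1 5 8 0 (.G 0 1 4 5 7 8)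
  (.E 0 1 5 8 1 (.G 0 1 4 5 7 8)
  (.E 0 1 6 8 2 (.G 0 1 4 6 7 8)
  (.E 0 4 5 8 0 (.G 0 4 1 5 7 8)
  (.E 0 5 6 8 2 (.G 0 5 1 6 7 8)
  (.E 1 4 5 8 0 (.M 0 4 8)
  (.E 1 5 6 8 2 (.M 0 5 8)
  (.X (.G 1 5 0 4 6 8)))))))))
  (.E 0 1 2 8 0 (.G 0 1 2 4 7 8)
  (.E 0 1 3 8 2 (.G 0 1 3 4 7 8)
  (.E 0 2 3 8 2 (.G 0 3 1 2 7 8)
  (.E 0 3 4 8 0 (.G 0 4 1 3 7 8)
  (.E 1 2 3 8 2 (.M 0 2 8)
  (.E 1 3 4 8 0 (.M 0 3 8)
  (.E 1 2 4 8 0 (.G 1 2 0 3 4 8)
  (.E 0 1 3 8 0 (.G 1 3 0 2 4 8)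
  (.E 1 2 3 8 0 (.G 1 3 0 2 4 8)
  (.E 1 3 4 8 2 (.G 1 3 0 2 4 8)
  (.E 2 3 4 8 2 (.G 2 3 0 1 4 8)
  (.E 0 1 4 8 2 (.G 1 4 0 2 3 8)
  (.E 1 2 4 8 2 (.G 1 4 0 2 3 8)
  (.E 0 3 4 8 2 (.G 3 4 0 1 2 8)
  (.E 2 3 4 8 0 (.G 3 4 0 1 2 8)
  .Z))))))))))))))))))))

/-- The 70 brackets. -/
def A70 : List (ℕ × ℕ × ℕ × ℕ) :=
  [(0, 1, 2, 3), (0, 1, 2, 4), (0, 1, 2, 5), (0, 1, 2, 6), (0, 1, 2, 7), (0, 1, 3, 4), (0, 1, 3, 5), (0, 1, 3, 6), (0, 1, 3, 7), (0, 1, 4, 5), (0, 1, 4, 6), (0, 1, 4, 7), (0, 1, 5, 6), (0, 1, 5, 7), (0, 1, 6, 7), (0, 2, 3, 4), (0, 2, 3, 5), (0, 2, 3, 6), (0, 2, 3, 7), (0, 2, 4, 5), (0, 2, 4, 6), (0, 2, 4, 7), (0, 2, 5, 6), (0, 2, 5, 7), (0, 2, 6, 7), (0, 3, 4, 5), (0, 3, 4, 6), (0, 3, 4, 7), (0, 3, 5, 6), (0, 3, 5, 7), (0, 3, 6, 7), (0, 4, 5, 6), (0, 4, 5, 7), (0, 4, 6, 7), (0, 5, 6, 7), (1, 2, 3, 4), (1, 2, 3, 5), (1, 2, 3, 6), (1, 2, 3, 7), (1, 2, 4, 5),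 (1, 2, 4, 6), (1, 2, 4, 7), (1, 2, 5, 6), (1, 2, 5, 7), (1, 2, 6, 7), (1, 3, 4, 5), (1, 3, 4, 6), (1, 3, 4, 7), (1, 3, 5, 6), (1, 3, 5, 7), (1, 3, 6, 7), (1, 4, 5, 6), (1, 4, 5, 7), (1, 4, 6, 7), (1, 5, 6, 7), (2, 3, 4, 5), (2, 3, 4, 6), (2, 3, 4, 7), (2, 3, 5, 6), (2, 3, 5, 7), (2, 3, 6, 7), (2, 4, 5, 6), (2, 4, 5, 7), (2, 4, 6, 7), (2, 5, 6, 7), (3, 4, 5, 6), (3, 4, 5, 7), (3, 4, 6, 7), (3, 5, 6, 7), (4, 5, 6, 7)]

/-- The 58 brackets. -/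
def A58 : List (ℕ × ℕ × ℕ × ℕ) :=
  [(0, 1, 2, 3), (0, 1, 2, 4), (0, 1, 2, 5), (0, 1, 2, 6), (0, 1, 2, 7), (0, 1, 3, 4), (0, 1, 3, 5), (0, 1, 3, 6), (0, 1, 3, 7), (0, 1, 4, 5), (0, 1, 4, 6), (0, 1, 4, 7), (0, 1, 5, 6), (0, 1, 5, 7), (0, 2, 3, 4), (0, 2, 3, 5), (0, 2, 3, 6), (0, 2, 3, 7), (0, 2, 4, 5), (0, 2, 5, 6), (0, 2, 5, 7), (0, 2, 6, 7), (0, 3, 4, 5), (0, 3, 4, 7), (0, 3, 6, 7), (0, 4, 5, 6), (0, 4, 5, 7), (0, 4, 6, 7), (0, 5, 6, 7), (1, 2, 3, 4), (1, 2, 3, 5), (1, 2, 3, 6), (1, 2, 3, 7), (1, 2, 4, 5), (1, 2, 5, 6), (1, 2, 5, 7), (1, 2, 6, 7), (1, 3, 4, 5), (1, 3, 6, 7), (1, 4, 5, 6), (1, 4, 5, 7), (1, 4, 6, 7), (1, 5, 6, 7), (2, 3, 4, 5), (2, 3, 4, 6), (2, 3, 4, 7), (2, 3, 5, 6), (2, 3, 5, 7), (2, 3, 6, 7), (2, 4, 5, 6), (2, 4, 5, 7), (2, 4, 6, 7), (2, 5, 6, 7), (3, 4, 5, 6), (3, 4, 5, 7), (3, 4, 6, 7), (3, 5, 6, 7), (4, 5, 6, 7)]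

/-- Four brackets with the point 8. -/
def A4 : List (ℕ × ℕ × ℕ × ℕ) := [(1, 2, 3, 8), (1, 2, 4, 8), (1, 3, 4, 8), (2, 3, 4, 8)]

theorem t1_ok : chk true A70 A58 (wk RL) t1 = true := by decide +kernel

theorem t2_ok : chk false A4 [] (st RL) t2 = true := by decide +kernel

theorem br_alt (P : ℕ → Fin 4 → ℝ) : Alt (Br P) :=
  ⟨fun _ _ _ _ => det4_12 _ _ _ _, fun _ _ _ _ => det4_34 _ _ _ _,
    fun _ _ _ _ => det4_13 _ _ _ _, fun _ _ _ _ => det4_24 _ _ _ _,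
    fun _ _ _ _ => det4_23 _ _ _ _⟩

theorem br_lin {P : ℕ → Fin 4 → ℝ} (h : ∀ i, i ≤ 8 → P i 0 = if fin i then 1 else 0)
    (a b c d e : ℕ) (ha : a ≤ 8) (hb : b ≤ 8) (hc : c ≤ 8) (hd : d ≤ 8) (he : e ≤ 8) :
    (if fin a then Br P b c d e else 0) + -(if fin b then Br P a c d e else 0)
    + (if fin c then Br P a b d e else 0) + -(if fin d then Br P a b c e else 0)
    + (if fin e then Br P a b c d else 0) = 0 := by
  have := det4_lin (P a) (P b) (P c) (P d) (P e) 0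
  rw [h a ha, h b hb, h c hc, h d hd, h e he] at this
  have k : ∀ (b : Bool) (x : ℝ), (if b then x else 0) = (if b then 1 else 0) * x := by
    intro b x; cases b <;> simp
  rw [k (fin a), k (fin b), k (fin c), k (fin d), k (fin e)]
  unfold Br
  linarith

/-- Closure certificate. -/
theorem cert1 (P : ℕ → Fin 4 → ℝ) (h0 : P 0 0 = 0) (h7 : P 7 0 = 0)
    (hf : ∀ i, 1 ≤ i → i ≤ 6 → P i 0 = 1)
    (hw : ∀ x ∈ RL, 0 ≤ sg x.2.2.2.2 * Br P x.1 x.2.1 x.2.2.1 x.2.2.2.1)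
    (hn : ∀ k l e, (k, l) ∈ PL → e ≤ 7 → Br P k (k + 1) l (l + 1) = 0 →
      ¬ Pat (Br P k (k + 1) l e) (Br P k (k + 1) (l + 1) e) (Br P l (l + 1) k e)
        (Br P l (l + 1) (k + 1) e)) :
    (∀ a b c d, a < b → b < c → c < d → d ≤ 7 → Br P a b c d = 0) ∨
      (∀ x ∈ RL, (x.1, x.2.1, x.2.2.1, x.2.2.2.1) ≠ (0, 1, 6, 7) →
        0 < sg x.2.2.2.2 * Br P x.1 x.2.1 x.2.2.1 x.2.2.2.1) := by
  -- the ninth point does not occur
  let P' : ℕ → Fin 4 → ℝ := fun i => if i ≤ 7 then P i else 0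
  have hP : ∀ i, i ≤ 7 → P' i = P i := fun i hi => by simp [P', hi]
  have hbr : ∀ a b c d, a ≤ 7 → b ≤ 7 → c ≤ 7 → d ≤ 7 → Br P' a b c d = Br P a b c d := by
    intro a b c d ha hb hc hd
    simp only [Br, hP _ ha, hP _ hb, hP _ hc, hP _ hd]
  have hcoord : ∀ i, i ≤ 8 → P' i 0 = if fin i then 1 else 0 := by
    intro i hi
    by_cases h7' : i ≤ 7
    · rw [hP i h7']
      by_cases hi0 : i = 0
      · subst hi0; simp [fin, h0]
      · by_cases hi7 : i = 7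
        · subst hi7; simp [fin, h7]
        · have h1 : 1 ≤ i := by omega
          have h2 : i ≤ 6 := by omega
          simp [fin, hf i h1 h2, h1, h2]
    · have : i = 8 := by omega
      subst this
      simp [P', fin]
  have hRL : ∀ x ∈ RL, x.1 ≤ 7 ∧ x.2.1 ≤ 7 ∧ x.2.2.1 ≤ 7 ∧ x.2.2.2.1 ≤ 7 := by
    decide +kernel
  have hw' : ∀ x ∈ RL, 0 ≤ sg x.2.2.2.2 * Br P' x.1 x.2.1 x.2.2.1 x.2.2.2.1 := by
    intro x hx
    obtain ⟨h1, h2, h3, h4⟩ := hRL x hx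
    rw [hbr _ _ _ _ h1 h2 h3 h4]
    exact hw x hx
  have hPL : ∀ p ∈ PL, p.1 + 1 ≤ 7 ∧ p.2 + 1 ≤ 7 := by decide +kernel
  have H : Hyp true (Br P') := by
    refine ⟨br_alt P', fun a b c d e f => det4_gp _ _ _ _ _ _, ?_, ?_, ?_⟩
    · intro a b c d e ha hb hc hd he
      exact br_lin hcoord a b c d e ha hb hc hd he
    · intro _ k l e hkl hz hp
      obtain ⟨h1, h2⟩ := hPL _ hkl
      simp only at h1 h2
      by_cases he : e ≤ 7
      · rw [hbr _ _ _ _ (by omega) (by omega) (by omega) (by omega)] at hz hp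
        rw [hbr _ _ _ _ (by omega) (by omega) (by omega) (by omega),
          hbr _ _ _ _ (by omega) (by omega) (by omega) (by omega),
          hbr _ _ _ _ (by omega) (by omega) (by omega) (by omega)] at hp
        exact hn k l e hkl he hz hp
      · have hz0 : P' e = 0 := by simp [P', he]
        have : ∀ a b c, Br P' a b c e = 0 := by
          intro a b c
          simp only [Br, hz0, det4, Pi.zero_apply]
          ring
        exact hp.2.2 ⟨this _ _ _, this _ _ _, this _ _ _, this _ _ _⟩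
    · intro h; exact absurd h (by simp)
  have hA70 : ∀ x ∈ A70, x.1 ≤ 7 ∧ x.2.1 ≤ 7 ∧ x.2.2.1 ≤ 7 ∧ x.2.2.2 ≤ 7 := by
    decide +kernel
  rcases chk_of H t1 (wk_facts hw') t1_ok with h | ⟨_, h⟩
  · left
    intro a b c d hab hbc hcd hd
    have hm : ∀ d : Fin 8, ∀ c : Fin 8, c < d → ∀ b : Fin 8, b < c → ∀ a : Fin 8, a < b →
        ((a : ℕ), (b : ℕ), (c : ℕ), (d : ℕ)) ∈ A70 := by
      decide +kernel
    have := h _ (hm ⟨d, by omega⟩ ⟨c, by omega⟩ hcd ⟨b, by omega⟩ hbc ⟨a, by omega⟩ hab)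
    simp only at this
    rwa [hbr _ _ _ _ (by omega) (by omega) (by omega) (by omega)] at this
  · right
    intro x hx hne
    have hm : ∀ x ∈ RL, (x.1, x.2.1, x.2.2.1, x.2.2.2.1) ≠ (0, 1, 6, 7) →
        (x.1, x.2.1, x.2.2.1, x.2.2.2.1) ∈ A58 := by decide +kernel
    have h1 := h _ (hm x hx hne)
    simp only at h1
    obtain ⟨k1, k2, k3, k4⟩ := hRL x hx
    rw [hbr _ _ _ _ k1 k2 k3 k4] at h1
    refine lt_of_le_of_ne (hw x hx) (Ne.symm (mul_ne_zero ?_ h1))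
    unfold sg
    split_ifs <;> norm_num

/-- Projection certificate. -/
theorem cert2 (P : ℕ → Fin 4 → ℝ) (h0 : P 0 0 = 0) (h7 : P 7 0 = 0) (h8 : P 8 0 = 0)
    (hf : ∀ i, 1 ≤ i → i ≤ 6 → P i 0 = 1)
    (hs : ∀ x ∈ RL, 0 < sg x.2.2.2.2 * Br P x.1 x.2.1 x.2.2.1 x.2.2.2.1) :
    (Br P 1 2 3 8 = 0 ∧ Br P 1 2 4 8 = 0 ∧ Br P 1 3 4 8 = 0 ∧ Br P 2 3 4 8 = 0) ∨
      ∃ l, 2 ≤ l ∧ l ≤ 5 ∧ Pat (Br P 0 1 l 8) (Br P 0 1 (l + 1) 8) (Br P l (l + 1) 0 8)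
        (Br P l (l + 1) 1 8) := by
  by_contra hcon
  push Not at hcon
  obtain ⟨hz, hl⟩ := hcon
  have hcoord : ∀ i, i ≤ 8 → P i 0 = if fin i then 1 else 0 := by
    intro i hi
    by_cases hi0 : i = 0
    · subst hi0; simp [fin, h0]
    · by_cases hi7 : i = 7
      · subst hi7; simp [fin, h7]
      · by_cases hi8 : i = 8
        · subst hi8; simp [fin, h8]
        · have h1 : 1 ≤ i := by omega
          have h2 : i ≤ 6 := by omega
          simp [fin, hf i h1 h2, h1, h2]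
  have H : Hyp false (Br P) := by
    refine ⟨br_alt P, fun a b c d e f => det4_gp _ _ _ _ _ _, ?_, ?_, ?_⟩
    · intro a b c d e ha hb hc hd he
      exact br_lin hcoord a b c d e ha hb hc hd he
    · intro h; exact absurd h (by simp)
    · intro _ k l hkl hp
      simp only [List.mem_cons, Prod.mk.injEq, List.not_mem_nil, or_false] at hkl
      rcases hkl with ⟨rfl, rfl⟩ | ⟨rfl, rfl⟩ | ⟨rfl, rfl⟩ | ⟨rfl, rfl⟩
      · exact hl 2 (by norm_num) (by norm_num) hp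
      · exact hl 3 (by norm_num) (by norm_num) hp
      · exact hl 4 (by norm_num) (by norm_num) hp
      · exact hl 5 (by norm_num) (by norm_num) hp
  rcases chk_of H t2 (st_facts hs) t2_ok with h | ⟨h, _⟩
  · exact hz (h (1, 2, 3, 8) (by simp [A4])) (h (1, 2, 4, 8) (by simp [A4]))
      (h (1, 3, 4, 8) (by simp [A4])) (h (2, 3, 4, 8) (by simp [A4]))
  · exact absurd h (by simp)

end Pool.Agent.LKT
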