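import Pool.Agent.LCK.Defs

/-!
# Squad LKT (MP_e0fe99_lc): the chain (G,1,1,1,1,1,G') is locked for all G, G' > 3

The knitting needle condition would need G, G' >= 5.  The proof is elementary: a set X of configurations
is given by the signs of 59 brackets (determinants of four of the eight points P_0, ..., P_7, where
P_1, ..., P_6 are the inner vertices and P_0, P_7 the directions of the two end links).

COORDINATES.  `x : Fin 8 -> E3`: `x 1, ..., x 6` = inner vertices v_1, ..., v_6 of the chain,
`x 0 = v_0 - v_1`, `x 7 = v_7 - v_6` (directions of the end links).  `hom x k` = homogeneous coordinates,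
first coordinate 0 for k = 0, 7 and 1 for k = 1, ..., 6.  `D x a b c d` = 4 x 4 determinant.
All brackets are multilinear, alternating, and AFFINE in each of the eight vectors x k separately.

The signs were found by computer in the knot class of 8_19; nothing about knots is used.
-/

set_option autoImplicit false

open Topology

namespace Pool.Agent.LKT

open Pool.Agent.LCK

/-- homogeneous coordinates -/
noncomputable def hom (x : Fin 8 → E3) (k : Fin 8) : Fin 4 → ℝ :=
  ![if k = 0 ∨ k = 7 then 0 else 1, x k 0, x k 1, x k 2]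

/-- determinant of four vectors of `Fin 4 → ℝ` (rows) -/
noncomputable def d4 (p q r s : Fin 4 → ℝ) : ℝ := Matrix.det (Matrix.of ![p, q, r, s])

/-- the bracket of four of the eight points -/
noncomputable def D (x : Fin 8 → E3) (a b c d : Fin 8) : ℝ := d4 (hom x a) (hom x b) (hom x c) (hom x d)

/-- the table of the 59 brackets (a, b, c, d, sign) -/
def tb : ℕ → Fin 8 × Fin 8 × Fin 8 × Fin 8 × ℤ
  | 0 => (0, 1, 2, 3, -1)
  | 1 => (0, 1, 2, 4, 1)
  | 2 => (0, 1, 2, 5, -1)
  | 3 => (0, 1, 2, 6, 1)
  | 4 => (0, 1, 2, 7, -1)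
  | 5 => (0, 1, 3, 4, -1)
  | 6 => (0, 1, 3, 5, 1)
  | 7 => (0, 1, 3, 6, -1)
  | 8 => (0, 1, 3, 7, 1)
  | 9 => (0, 1, 4, 5, -1)
  | 10 => (0, 1, 4, 6, 1)
  | 11 => (0, 1, 4, 7, -1)
  | 12 => (0, 1, 5, 6, -1)
  | 13 => (0, 1, 5, 7, 1)
  | 14 => (0, 1, 6, 7, -1)
  | 15 => (0, 2, 3, 4, -1)
  | 16 => (0, 2, 3, 5, 1)
  | 17 => (0, 2, 3, 6, -1)
  | 18 => (0, 2, 3, 7, 1)
  | 19 => (0, 2, 4, 5, 1)
  | 20 => (0, 2, 5, 6, -1)
  | 21 => (0, 2, 5, 7, 1)
  | 22 => (0, 2, 6, 7, 1)
  | 23 => (0, 3, 4, 5, -1)
  | 24 => (0, 3, 4, 7, -1)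
  | 25 => (0, 3, 6, 7, -1)
  | 26 => (0, 4, 5, 6, -1)
  | 27 => (0, 4, 5, 7, 1)
  | 28 => (0, 4, 6, 7, 1)
  | 29 => (0, 5, 6, 7, -1)
  | 30 => (1, 2, 3, 4, 1)
  | 31 => (1, 2, 3, 5, -1)
  | 32 => (1, 2, 3, 6, 1)
  | 33 => (1, 2, 3, 7, -1)
  | 34 => (1, 2, 4, 5, -1)
  | 35 => (1, 2, 5, 6, 1)
  | 36 => (1, 2, 5, 7, -1)
  | 37 => (1, 2, 6, 7, -1)
  | 38 => (1, 3, 4, 5, 1)
  | 39 => (1, 3, 6, 7, 1)
  | 40 => (1, 4, 5, 6, 1)
  | 41 => (1, 4, 5, 7, -1)
  | 42 => (1, 4, 6, 7, -1)
  | 43 => (1, 5, 6, 7, 1)
  | 44 => (2, 3, 4, 5, -1)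
  | 45 => (2, 3, 4, 6, 1)
  | 46 => (2, 3, 4, 7, -1)
  | 47 => (2, 3, 5, 6, -1)
  | 48 => (2, 3, 5, 7, 1)
  | 49 => (2, 3, 6, 7, -1)
  | 50 => (2, 4, 5, 6, -1)
  | 51 => (2, 4, 5, 7, 1)
  | 52 => (2, 4, 6, 7, 1)
  | 53 => (2, 5, 6, 7, -1)
  | 54 => (3, 4, 5, 6, 1)
  | 55 => (3, 4, 5, 7, -1)
  | 56 => (3, 4, 6, 7, -1)
  | 57 => (3, 5, 6, 7, 1)
  | 58 => (4, 5, 6, 7, -1)
  | _ => (0, 0, 0, 0, 0)

/-- the signed bracket number `i` -/
noncomputable def F (i : ℕ) (x : Fin 8 → E3) : ℝ :=
  ((tb i).2.2.2.2 : ℝ) * D x (tb i).1 (tb i).2.1 (tb i).2.2.1 (tb i).2.2.2.1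

/-- the set X -/
def X : Set (Fin 8 → E3) := {x | ∀ i < 59, 0 < F i x}

/-- the chain v_0, ..., v_7 with coordinates x -/
noncomputable def vv (x : Fin 8 → E3) : Fin 8 → E3 :=
  ![x 1 + x 0, x 1, x 2, x 3, x 4, x 5, x 6, x 6 + x 7]

/-- the coordinates of the chain v_0, ..., v_7 -/
noncomputable def xx (v : Fin 8 → E3) : Fin 8 → E3 :=
  ![v 0 - v 1, v 1, v 2, v 3, v 4, v 5, v 6, v 7 - v 6]

/-- the open set Om: non adjacent closed links are disjoint and the end links are long -/
def Om : Set (Fin 8 → E3) :=
  {x | (∀ i j : Fin 7, (i : ℕ) + 2 ≤ j →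
      Disjoint (segment ℝ (vv x i.castSucc) (vv x i.succ)) (segment ℝ (vv x j.castSucc) (vv x j.succ))) ∧
    (∀ j : Fin 8, 2 ≤ j → j ≤ 6 → ‖x j - x 1‖ < ‖x 0‖) ∧
    (∀ j : Fin 8, 1 ≤ j → j ≤ 5 → ‖x j - x 6‖ < ‖x 7‖)}

/-- the indices of the twelve brackets k, k+1, l, l+1 of two links that can vanish -/
def lk : Finset ℕ := {0, 5, 9, 12, 14, 34, 37, 44, 47, 49, 56, 58}

/-! ## Rows -/

/-- GPI (easy-medium).  Three term Grassmann-Pluecker identity in R^4.
Proof: expand (`Matrix.det_succ_row_zero`, `Fin.sum_univ_succ`), or write d4 as an explicit polynomial once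
and `ring`.  (Alternative: the left side is, for fixed a, b, alternating in c, d, e, f modulo the span of
a, b, which has dimension 2.) -/
def GpiStmt : Prop := ∀ a b c d e f : Fin 4 → ℝ,
  d4 a b c d * d4 a b e f - d4 a b c e * d4 a b d f + d4 a b c f * d4 a b d e = 0

/-- CRM (easy-medium).  Cramer relation of five vectors of R^4, and alternation of d4.
Proof: expand, `ring`, coordinate by coordinate. -/
def CrmStmt : Prop :=
  (∀ (a b c d e : Fin 4 → ℝ) (i : Fin 4),
    d4 b c d e * a i - d4 a c d e * b i + d4 a b d e * c i - d4 a b c e * d i + d4 a b c d * e i = 0) ∧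
  (∀ a b c d : Fin 4 → ℝ, d4 b a c d = - d4 a b c d ∧ d4 a c b d = - d4 a b c d ∧
    d4 a b d c = - d4 a b c d) ∧
  (∀ (a a' b c d : Fin 4 → ℝ) (s t : ℝ), d4 (s • a + t • a') b c d = s * d4 a b c d + t * d4 a' b c d) ∧
  (∀ a b c : Fin 4 → ℝ, d4 a a b c = 0)

/-- AFF (medium).  Every F i is continuous and affine in each of the eight vectors.
Proof: `hom (Function.update x k y) j` is `hom x j` for j <> k and affine in y for j = k (first coordinate
constant); d4 is linear in each row (`Matrix.det_updateRow_add`, or expand the 4 x 4 determinant into an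
explicit polynomial in the coordinates).  If k occurs in two places of the bracket nothing is claimed: the
four entries of every `tb i` (i < 59) are distinct (`decide`). -/
def AffStmt : Prop := (∀ i, Continuous (F i)) ∧
  ∀ i < 59, ∀ (x : Fin 8 → E3) (k : Fin 8), ∃ (al : E3) (be : ℝ), ∀ y : E3,
    F i (Function.update x k y) = inner ℝ al y + be

/-- WLN (medium, long).  WALLS WHICH DO NOT EXIST: 45 brackets by one Grassmann-Pluecker relation each, two
by the first coordinate.
Proof.  Let j be not in lk, all F i > 0 for i <> j, and F j = 0.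
j = 21 (0257): the Cramer relation of P_0, P_1, P_2, P_5, P_7, first coordinate (0,1,1,1,0):
  - D0257 + D0157 - D0127 = 0, but D0157 > 0 > D0127.
j = 24 (0347): Cramer for P_0, P_3, P_4, P_6, P_7: first coordinate: - D0467 + D0367 - D0347 = 0 up to
  the signs of the relation, i.e. D0347 = D0367 - D0467 < 0 as D0367 < 0 < D0467.
All other j: GP(ab; cdef) is D_abcd D_abef - D_abce D_abdf + D_abcf D_abde = 0; product 0, 1, 2 contains
the bracket j and vanishes; the other two terms are non zero with the SAME sign (all four brackets are in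
the table after reordering the four indices), contradiction.  LIST (index: bracket via GP(ab; cdef),
number of the product which vanishes):
  1: 0124 via GP(01; 2345) product 1
  2: 0125 via GP(01; 2356) product 1
  3: 0126 via GP(01; 2367) product 1
  4: 0127 via GP(02; 1367) product 2
  6: 0135 via GP(01; 2345) product 1
  7: 0136 via GP(01; 2346) product 1
  8: 0137 via GP(01; 2347) product 1
  10: 0146 via GP(01; 2456) product 1
  11: 0147 via GP(01; 2457) product 1
  13: 0157 via GP(01; 2567) product 1
  15: 0234 via GP(02; 1345) product 2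
  16: 0235 via GP(23; 0156) product 1
  17: 0236 via GP(02; 1356) product 1
  18: 0237 via GP(02; 1357) product 1
  19: 0245 via GP(24; 0135) product 2
  20: 0256 via GP(02; 1567) product 2
  22: 0267 via GP(26; 0137) product 2
  23: 0345 via GP(04; 1235) product 0
  25: 0367 via GP(06; 1237) product 0
  26: 0456 via GP(04; 1567) product 2
  27: 0457 via GP(05; 1247) product 0
  28: 0467 via GP(46; 0157) product 2
  29: 0567 via GP(06; 1257) product 0
  30: 1234 via GP(12; 0345) product 2
  31: 1235 via GP(23; 0145) product 1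
  32: 1236 via GP(12; 0356) product 1
  33: 1237 via GP(12; 0357) product 1
  35: 1256 via GP(12; 0567) product 2
  36: 1257 via GP(25; 0137) product 1
  38: 1345 via GP(14; 0235) product 0
  39: 1367 via GP(16; 0237) product 0
  40: 1456 via GP(14; 0567) product 2
  41: 1457 via GP(15; 0247) product 0
  42: 1467 via GP(67; 0124) product 1
  43: 1567 via GP(16; 0257) product 0
  45: 2346 via GP(23; 0456) product 1
  46: 2347 via GP(23; 0457) product 1
  48: 2357 via GP(23; 0567) product 1
  50: 2456 via GP(24; 3567) product 2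
  51: 2457 via GP(25; 0347) product 0
  52: 2467 via GP(46; 2357) product 2
  53: 2567 via GP(26; 0357) product 0
  54: 3456 via GP(34; 2567) product 2
  55: 3457 via GP(45; 0367) product 1
  57: 3567 via GP(36; 2457) product 0
Recommended: generate the Lean text with a small program (one `have` per index; `fin_cases`/`interval_cases j`). -/
def WlnStmt : Prop := ∀ (x : Fin 8 → E3) (j : ℕ), j < 59 → j ∉ lk →
  (∀ i < 59, i ≠ j → 0 < F i x) → F j x ≠ 0

/-- WLF (medium).  Walls of two inner links: indices 34 (12|45), 44 (23|45), 47 (23|56).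
Proof.  Suppose D_{a,a+1,b,b+1} = 0.  Cramer relation of these four points and a fifth point e (e = 3 for
1245, e = 1 for 2345, e = 4 for 2356; all four other brackets are in the table): its coefficients of P_a, P_(a+1)
are positive and those of P_b, P_(b+1) negative (or all opposite), the coefficient of P_e is zero.  First
coordinates: the two positive ones and the two negative ones have the same sum s > 0.  Dividing by s the
point q is a convex combination of x a, x (a+1) and of x b, x (b+1): the two links (vertices vv x a, a+1 and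
b, b+1) meet, which is excluded by the first part of Om. -/
def WlfStmt : Prop := ∀ x ∈ Om, ∀ j : ℕ, (j = 34 ∨ j = 44 ∨ j = 47) →
  (∀ i < 59, i ≠ j → 0 < F i x) → F j x ≠ 0

/-- WLR (medium).  Walls of the first end link and an inner link: indices 0 (01|23), 5 (01|34), 9 (01|45),
12 (01|56).
Proof.  Cramer relation with a fifth point e (e = 4 for 0123, e = 2 for 0134, 0145, 0156): c_0 P_0 + c_1 P_1
= c_b P_b + c_(b+1) P_(b+1) with four positive coefficients, first coordinate: c_1 = c_b + c_(b+1) = s > 0.
q = x 1 + (c_0/s) x 0 is a convex combination of x b, x (b+1), so |(c_0/s) x 0| = |q - x 1| <=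
max (|x b - x 1|, |x (b+1) - x 1|) < |x 0| (second part of Om; b >= 2, b+1 <= 6), c_0/s < 1, and q is on the
end link from x 1 + x 0 to x 1.  So links number 0 and b meet: contradiction. -/
def WlrStmt : Prop := ∀ x ∈ Om, ∀ j : ℕ, (j = 0 ∨ j = 5 ∨ j = 9 ∨ j = 12) →
  (∀ i < 59, i ≠ j → 0 < F i x) → F j x ≠ 0

/-- WLS (medium).  The same for the last end link: indices 58 (45|67), 56 (34|67), 49 (23|67), 37 (12|67).
Proof.  As WLR with c_6 P_6 + c_7 P_7 = c_a P_a + c_(a+1) P_(a+1), fifth point e = 3 for 4567, e = 5 for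
3467, 2367, e = 3 for 1267 (all brackets in the table); q = x 6 + (c_7/s) x 7. -/
def WlsStmt : Prop := ∀ x ∈ Om, ∀ j : ℕ, (j = 58 ∨ j = 56 ∨ j = 49 ∨ j = 37) →
  (∀ i < 59, i ≠ j → 0 < F i x) → F j x ≠ 0

/-- WLX (medium-strong).  The wall of the two end links: index 14 (01|67).
Proof.  D0167 = 0.  Cramer of P_0, P_1, P_2, P_6, P_7: |D1267| P_0 + D0267 P_1 = |D0127| P_6 + D0126 P_7
(all positive), first coordinate D0267 = |D0127| = s.  So q = x 1 + al x 0 = x 6 + be x 7, al = |D1267|/s > 0,
be = D0126/s > 0.  CLAIM be < 1: Cramer of P_1, P_2, P_3, P_6, P_7: |D1237| P_6 + D1236 P_7 = |D2367| P_1 +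
D1367 P_2 + |D1267| P_3, so y = x 6 + ta x 7, ta = D1236/|D1237|, is a convex combination of x 1, x 2, x 3,
|ta x 7| = |y - x 6| < |x 7| (third part of Om), ta < 1.  The bracket of P_1, P_2, P_3 and P_1 + al P_0 =
P_6 + be P_7 is al D(1,2,3,0) = - al D0123 > 0 and also D1236 + be D1237 = |D1237| (ta - be): be < ta < 1.
In the same way al < 1: Cramer of P_0, P_1, P_4, P_5, P_6: D1456 P_0 + |D0456| P_1 = |D0156| P_4 + D0146 P_5 +
|D0145| P_6, ta' = D1456/|D0456| < 1 (second part of Om); D(q,4,5,6) = be D(7,4,5,6) = - be D4567 > 0 and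
= D1456 + al D0456 = |D0456| (ta' - al).  So q is on both end links (links number 0 and 6): contradiction. -/
def WlxStmt : Prop := ∀ x ∈ Om, (∀ i < 59, i ≠ 14 → 0 < F i x) → F 14 x ≠ 0

/-- OPN (medium).  Om is open.
Proof.  Finitely many conditions.  The norm inequalities are open.  Two segments [a,b], [c,d] are disjoint iff
the continuous function (s,t) -> |(1-s)a+sb-(1-t)c-td| has a positive minimum on the unit square; the set of
(a,b,c,d) with disjoint segments is open: its complement is the image of a closed set under a projection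
along the compact square (`IsCompact.isClosedMap_snd`..), or: if a_n -> a etc. and the segments meet, take
convergent parameters.  vv x is continuous in x. -/
def OpnStmt : Prop := IsOpen Om

/-- NP: the zero plane of f i in the k-th vector is not contained in the one of f j -/
def NP {N : ℕ} (f : Fin N → (Fin 8 → E3) → ℝ) (k : Fin 8) (i j : Fin N) (x : Fin 8 → E3) : Prop :=
  (∀ y, f i (Function.update x k y) ≠ 0) ∨
    ∃ y, f i (Function.update x k y) = 0 ∧ f j (Function.update x k y) ≠ 0

/-- ONE (medium-strong).  ONE VERTEX LEMMA.  Let U be an open ball around the point p of E3 (any open convex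
set containing z k is enough).
Proof.  Put g_i(y) = f i (update z k y) = <al_i, y> + be_i, g_i (z k) > 0.  Suppose g_t(y0) <= 0 for some
y0 in U.  Going a little further along the ray from z k through y0 we get y1 in U with g_t(y1) < 0.  The open
set {y in U : g_t(y) < 0} is not covered by the zero sets of the finitely many affine functions
h_ij(y) = g_i(z k) g_j(y) - g_j(z k) g_i(y) which are not identically zero (each is a proper affine plane,
nowhere dense): choose y' in it outside of them.  For i with g_i(y') < 0 put tau_i = g_i(z k)/(g_i(z k) -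
g_i(y')) in (0,1), the zero of g_i on the segment from z k to y'.  Let i0 have the smallest tau.  For every other
j with g_j(y') < 0: tau_j = tau_i0 iff h_(i0 j)(y') = 0; but h_(i0 j) is not identically zero: by NP (g_i0 has a
zero, so the second alternative holds) there is y with g_i0(y) = 0, g_j(y) <> 0, h(y) = g_i0(z k) g_j(y) <> 0.
So tau_j > tau_i0.  At y* = z k + tau_i0 (y' - z k) in U exactly g_i0 vanishes and all other g_j are positive
(convexity for those with g_j(y') >= 0).  This contradicts the hypothesis hW. -/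
def OneStmt : Prop := ∀ (N : ℕ) (f : Fin N → (Fin 8 → E3) → ℝ) (z : Fin 8 → E3) (k : Fin 8) (U : Set E3),
  (∀ i, ∃ (al : E3) (be : ℝ), ∀ y : E3, f i (Function.update z k y) = inner ℝ al y + be) →
  IsOpen U → Convex ℝ U → z k ∈ U →
  (∀ i, 0 < f i z) →
  (∀ i j, i ≠ j → NP f k i j z) →
  (∀ y ∈ U, ∀ j, (∀ i, i ≠ j → 0 < f i (Function.update z k y)) → f j (Function.update z k y) ≠ 0) →
  ∀ y ∈ U, ∀ i, 0 < f i (Function.update z k y)

/-- ABS (medium-strong; uses ONE).  LOCAL LEMMA.
Proof.  Choose r > 0 with B = product of the balls ball (c k) r contained in O.  For w in B let S(k) be: if w is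
in closure W (W = {all f i > 0}) and y in ball (c k) r, then update w k y is in closure W.  Proof of S(k):
w is a limit of points w' in W, in B and in the dense set of generic points (W and B are open, w in closure W,
so every neighbourhood of w meets the open set W inter B, hence a generic point of it).  ONE with U = ball (c k) r
(update w' k y is in B, so in O: hypothesis hW) gives update w' k y in W; update is continuous in w'.
Starting with w = c and replacing the coordinates 0, ..., 7 one after the other (every intermediate point is in B)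
every x' in B is in closure W. -/
def AbsStmt : Prop := ∀ (N : ℕ) (f : Fin N → (Fin 8 → E3) → ℝ) (O : Set (Fin 8 → E3)),
  (∀ i x k, ∃ (al : E3) (be : ℝ), ∀ y : E3, f i (Function.update x k y) = inner ℝ al y + be) →
  (∀ i, Continuous (f i)) → IsOpen O →
  Dense {x : Fin 8 → E3 | ∀ k i j, i ≠ j → NP f k i j x} →
  (∀ x ∈ O, ∀ j, (∀ i, i ≠ j → 0 < f i x) → f j x ≠ 0) →
  ∀ c ∈ O, c ∈ closure {x | ∀ i, 0 < f i x} → closure {x | ∀ i, 0 < f i x} ∈ 𝓝 c

/-- NVD (medium).  Common non vanishing set of finitely many functions, each polynomial on every line.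
Proof.  Let x be a point, z0 a point with h m z0 <> 0 for all m.  t -> h m (x + t (z0 - x)) is a polynomial p_m in t,
p_m(1) <> 0, so p_m has finitely many zeros; for all small t > 0 outside finitely many values all h m are
non zero at x + t (z0 - x), which tends to x. -/
def NvdStmt : Prop := ∀ (M : ℕ) (h : Fin M → (Fin 8 → E3) → ℝ) (z0 : Fin 8 → E3),
  (∀ m x y, ∃ p : Polynomial ℝ, ∀ t : ℝ, h m (x + t • y) = p.eval t) →
  (∀ m, h m z0 ≠ 0) → Dense {x : Fin 8 → E3 | ∀ m, h m x ≠ 0}

/-- GNP (medium).  If all 70 brackets are non zero and no line P_a P_b is parallel to a plane of three other points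
in the sense below, then NP holds for all pairs of table entries.
Proof.  Let i <> j, s = set of tb i, t = set of tb j (4-element sets, different; `decide` over the table).
If k is not in s: F i does not depend on x k, is non zero: first alternative.  Let k in s.  If k not in t: F j does not
depend on y and is non zero; a zero of F i in y exists (y = x b for b in s, b finite, b <> k, if k is finite; y = x b - x c
for two finite b, c in s if k is infinite, or y = x 7 (x 0) if that point is in s; then two rows are dependent).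
Let k in s and in t.
k finite (1..6): there is b in s, not in t.  b finite: y = x b: F i = 0 (two equal rows), F j = +- bracket of
t with k replaced by b, non zero.  b infinite: take a finite c in s, c <> k (exists), y = x c + x b: row =
P_c + P_b, F i = 0; F j = (term with P_c) + (term with P_b); if c is in t the first is 0, the second is a
non zero bracket; if c is not in t then use the finite point c instead of b.
k infinite (0 or 7): rows (0, y).  If the other infinite point b is in s and not in t: y = x b.  Otherwise there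
is a finite b in s, not in t; take another finite c in s, c <> b (s has at least two finite points besides
k).  y = x b - x c: row P_b - P_c, F i = 0; F j = +-(D(.. b ..) - D(.. c ..)): if c in t it is a non zero
bracket, if not it is non zero by the second hypothesis.  -/
def GnpStmt : Prop := ∀ x : Fin 8 → E3,
  (∀ a b c d : Fin 8, a < b → b < c → c < d → D x a b c d ≠ 0) →
  (∀ a b p q r : Fin 8, 1 ≤ a → a < b → b ≤ 6 → p < q → q < r →
    a ≠ p → a ≠ q → a ≠ r → b ≠ p → b ≠ q → b ≠ r → D x a p q r - D x b p q r ≠ 0) →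
  ∀ (k : Fin 8) (i j : Fin 59), i ≠ j → NP (fun (m : Fin 59) y => F m y) k i j x

/-- GEX (medium).  An explicit generic point: all brackets and all differences of GNP are non zero.
Proof: take integer points (random small integers, e.g. found by a program) and `decide`/`norm_num` the 70 + 15 * C(6,3)
= 370 conditions; best: a Bool computation over the integers of an integer copy of D (`decide`), and a cast lemma. -/
def GexStmt : Prop := ∃ x : Fin 8 → E3,
  (∀ a b c d : Fin 8, a < b → b < c → c < d → D x a b c d ≠ 0) ∧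
  (∀ a b p q r : Fin 8, 1 ≤ a → a < b → b ≤ 6 → p < q → q < r →
    a ≠ p → a ≠ q → a ≠ r → b ≠ p → b ≠ q → b ≠ r → D x a p q r - D x b p q r ≠ 0)

/-- GEN (medium; uses NVD, GNP, GEX).  Generic points are dense.
Proof: NVD with the finite family of all brackets and all differences D x a p q r - D x b p q r of GNP (index set =
the tuples satisfying the conditions, a Fintype, transported to `Fin M`); on a line x + t y every bracket is a
polynomial in t; z0 from GEX; then GNP. -/
def GenStmt : Prop :=
  Dense {x : Fin 8 → E3 | ∀ k (i j : Fin 59), i ≠ j → NP (fun (m : Fin 59) y => F m y) k i j x}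

/-- QUA (medium).  Four unit vectors in convex position (the diagonals cross).
Proof.  f = e1 + e3, g = e2 + e4, p = a e1 + c e3 = b e2 + d e4.  If p = 0 then e3 = -e1 and e4 = -e2 (unit vectors,
positive coefficients), f = g = 0.  If f = 0 or g = 0 the norm is at most 2.  Otherwise let A, B in [0, pi/2) be half the
angles between e1, e3 and between e2, e4: |f| = 2 cos A, |g| = 2 cos B.  p is in the cone of e1, e3, so
angle (p, f) <= A: <p, f> = (a + c)(1 + <e1,e3>) >= |p| |f| cos A (square: p = ((a+c) f + (a-c)(e1-e3))/2).  In the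
same way angle (p, g) <= B.  Triangle inequality for angles: angle (f, g) <= A + B, so <f,g> >= |f||g| cos (A+B).
|f - g|^2 = 4 cos^2 A + 4 cos^2 B - 2 <f,g> <= 4 cos^2 A + 4 cos^2 B - 8 cos A cos B cos (A+B)
= 4 - 4 cos^2 (A+B) <= 4, because cos^2 A + cos^2 B - 1 = cos (A+B) cos (A-B) and
2 cos A cos B = cos (A+B) + cos (A-B).  -/
def QuaStmt : Prop := ∀ (e1 e2 e3 e4 : E3) (a b c d : ℝ), ‖e1‖ = 1 → ‖e2‖ = 1 → ‖e3‖ = 1 → ‖e4‖ = 1 →
  0 < a → 0 < b → 0 < c → 0 < d → a • e1 + c • e3 = b • e2 + d • e4 → ‖e1 - e2 + e3 - e4‖ ≤ 2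

/-- RCH (medium; uses CRM, QUA).  REACH.
Proof.  Let u_k = x k - x (k-1).  (1) Links 2..5: det3(u2,u3,u4) = D1234 > 0, det3(u3,u4,u5) = D2345 < 0,
det3(u2,u3,u5) = D1235 - D1234 < 0, det3(u2,u4,u5) = D1345 - D2345 > 0 (row operations in the 4 x 4
determinant; signs from the table).  Cramer in R^3: det3(u3,u4,u5) u2 - det3(u2,u4,u5) u3 + det3(u2,u3,u5) u4 -
det3(u2,u3,u4) u5 = 0, so al u2 + be u3 + ga u4 + de u5 = 0 with four positive coefficients.  All u_k <> 0.  With
e1 = u2/|u2|, e2 = -u3/|u3|, e3 = u4/|u4|, e4 = -u5/|u5| QUA gives |sum of u_k/|u_k|| <= 2, and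
|u_k - u_k/|u_k|| = ||u_k| - 1|.  (2) Links 3..6: det3(u4,u5,u6) = D3456 > 0, det3(u3,u4,u5) = D2345 < 0,
det3(u3,u4,u6) = D2346 - D2345 > 0, det3(u3,u5,u6) = D2456 - D3456 < 0; same argument. -/
def RchStmt : Prop := ∀ x ∈ X,
  ‖x 5 - x 1‖ ≤ 2 + |‖x 2 - x 1‖ - 1| + |‖x 3 - x 2‖ - 1| + |‖x 4 - x 3‖ - 1| + |‖x 5 - x 4‖ - 1| ∧
  ‖x 6 - x 2‖ ≤ 2 + |‖x 3 - x 2‖ - 1| + |‖x 4 - x 3‖ - 1| + |‖x 5 - x 4‖ - 1| + |‖x 6 - x 5‖ - 1|

/-- SMP (medium).  If all brackets k, k+1, l, l+1 with k + 2 <= l and all brackets k, k+1, k+2, k+3 are non zero, the chain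
is simple.
Proof.  Links k and l (vertices k, k+1 and l, l+1 of vv x): if they had a common point, P_k, P_(k+1), P_l, P_(l+1) would be
linearly dependent (a point of [v_0, v_1] is x 1 + s x 0, homogeneous coordinates P_1 + s P_0).  For l = k+1: a
common point other than v_(k+1) would make v_k, v_(k+1), v_(k+2) collinear, so the bracket of the points
k, k+1, k+2 and a fourth consecutive one (k+3 or k-1) would vanish. -/
def SmpStmt : Prop := ∀ x : Fin 8 → E3,
  (∀ a b c d : Fin 8, (b : ℕ) = a + 1 → (d : ℕ) = c + 1 → (b : ℕ) < c → D x a b c d ≠ 0) →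
  (∀ a b c d : Fin 8, (b : ℕ) = a + 1 → (c : ℕ) = b + 1 → (d : ℕ) = c + 1 → D x a b c d ≠ 0) →
  Simple (n := 7) (vv x)

/-- EXM (medium).  THE EXAMPLE: directions of the links d1 = (17,-4,28)/33, d2 = (-17,-4,-28)/33, d3 = (16,7,28)/33,
d4 = (-6,-14,-27)/31, d5 = (2,14,23)/27, d6 = (1,-4,-8)/9, d7 = (-4,8,19)/21 (all of length 1):
x 1 = 0, x k = d2 + ... + dk (k = 2..6), x 0 = -G d1, x 7 = G' d7.  All 59 signed brackets are positive (the smallest
for G = G' = 1 is 0.003).
Proof: exact rational arithmetic; brackets with 0 (7) are multiplied by G (G'): pull the factor out, then `norm_num`.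
Clear the denominators first (each bracket is a rational number times a power of G, G'). -/
def ExmStmt : Prop := ∀ G G' : ℝ, 0 < G → 0 < G' → ∃ x ∈ X,
  ‖x 0‖ = G ∧ ‖x 7‖ = G' ∧ ‖x 2 - x 1‖ = 1 ∧ ‖x 3 - x 2‖ = 1 ∧ ‖x 4 - x 3‖ = 1 ∧ ‖x 5 - x 4‖ = 1 ∧
  ‖x 6 - x 5‖ = 1

/-- MIR (easy-medium).  Reflection changes the sign of all brackets and keeps norms.
Proof: m = reflection of the first coordinate; all entries of one column of the determinant change sign. -/
def MirStmt : Prop := ∃ m : E3 ≃ₗᵢ[ℝ] E3, ∀ (x : Fin 8 → E3) (a b c d : Fin 8),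
  D (fun k => m (x k)) a b c d = - D x a b c d

/-- FIN (medium-strong; uses AFF WLN WLF WLR WLS WLX OPN ABS GEN RCH SMP EXM MIR).  THE THEOREM.
Proof.  l = (G,1,1,1,1,1,G').  (a) By AFF, GEN, OPN and the wall rows (WLN for j not in lk; lk is the union of the
indices of WLF, WLR, WLS, WLX) ABS applies to f = (F i), i < 59, O = Om, {all > 0} = X: c in Om and c in closure X imply
closure X in nhds c.  (b) If v in Conf l and xx v in closure X then xx v in Om: non adjacent links are disjoint as v is
simple (vv (xx v) = v); RCH holds on closure X by continuity, so |x5 - x1| <= 2 and |x6 - x2| <= 2 (unit links), hence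
|xj - x1| <= 3 < G = |x0| for j = 2..6 (|x6 - x1| <= |x6 - x5| + |x5 - x1|) and |xj - x6| <= 3 < G' for j = 1..5.
(c) Let U = xx^-1 (interior (closure X)), V = xx^-1 (complement of closure X): open, disjoint, and they cover Conf l by (a),
(b).  (d) Both meet Conf l: x of EXM is in X, vv x has the right lengths and is simple by SMP (all brackets used in SMP are
in the table); x is in the open set X, so in the interior.  Its mirror image (MIR) has the right lengths, is simple by
SMP, and has F 0 < 0, so it is not in closure X (there F 0 >= 0).  So Conf l is not preconnected. -/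
def FinStmt : Prop := ∀ G G' : ℝ, 3 < G → 3 < G' →
  Locked (n := 7) ![G, 1, 1, 1, 1, 1, G']

/-- EXT (easy-medium; uses FIN).  Longer chains.  Uses the landed theorems of squad LCK: a locked chain stays locked when
links of positive length are appended at either end (the statement in EndLinkThreshold; Pool/Agent/Helper*_LCK).
Proof: induction on the number of appended links on the right (snoc) and on the left (cons). -/
def ExtStmt : Prop := ∀ (n : ℕ) (l : Fin n → ℝ) (s : ℕ) (hs : s + 7 ≤ n), (∀ k, 0 < l k) →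
  3 < l ⟨s, by omega⟩ → l ⟨s + 1, by omega⟩ = 1 → l ⟨s + 2, by omega⟩ = 1 → l ⟨s + 3, by omega⟩ = 1 →
  l ⟨s + 4, by omega⟩ = 1 → l ⟨s + 5, by omega⟩ = 1 → 3 < l ⟨s + 6, by omega⟩ → Locked l

end Pool.Agent.LKT
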